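import Pool.Agent.TH915.PW.Scaled

set_option autoImplicit false

/-! Finite families of real numbers or integers with small exponential sums have many members in
record gaps. -/

namespace Pool.Agent.X33.RW

open Finset Filter MeasureTheory
open Pool.Agent.TH915.PW
open Pool.Agent.H469R2.NK (e norm_e e_add e_zero)
open Pool.Agent.W147.PS (ff ev_pow ff_compare)

lemma e_int (m : ℤ) : e (m : ℝ) = 1 := by
  unfold e
  rw [Complex.exp_eq_one_iff]
  refine ⟨m, ?_⟩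
  push_cast
  ring

lemma e_eq_one_iff (x : ℝ) : e x = 1 ↔ ∃ m : ℤ, x = m := by
  unfold e
  rw [Complex.exp_eq_one_iff]
  constructor
  · rintro ⟨n, hn⟩
    refine ⟨n, ?_⟩
    have h2 : ((2 * Real.pi * x : ℝ) : ℂ) = ((n * (2 * Real.pi) : ℝ) : ℂ) := by
      have h3 : ((2 * Real.pi * x : ℝ) : ℂ) * Complex.I = (((n * (2 * Real.pi) : ℝ) : ℂ)) * Complex.I := by
        rw [hn]
        push_cast
        ring
      exact mul_right_cancel₀ Complex.I_ne_zero h3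
    have h4 : 2 * Real.pi * x = n * (2 * Real.pi) := by exact_mod_cast h2
    have h5 := Real.pi_pos
    have h6 : (2 * Real.pi) * (x - n) = 0 := by linarith
    rcases mul_eq_zero.1 h6 with h7 | h7
    · linarith
    · linarith
  · rintro ⟨m, rfl⟩
    refine ⟨m, ?_⟩
    push_cast
    ring

lemma e_nat_mul (n : ℕ) (x : ℝ) : e (n * x) = e x ^ n := by
  induction n with
  | zero => simp [e_zero]
  | succ n ih =>
    rw [pow_succ, ← ih, ← e_add]
    congr 1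
    push_cast
    ring

/-- orthogonality -/
lemma orth (q : ℕ) (hq : 1 ≤ q) (m : ℤ) :
    ∑ h ∈ range q, e ((h : ℝ) / q * m) = if (q : ℤ) ∣ m then (q : ℂ) else 0 := by
  have hq0 : (q : ℝ) ≠ 0 := by positivity
  have h1 : ∀ h ∈ range q, e ((h : ℝ) / q * m) = e ((m : ℝ) / q) ^ h := by
    intro h _
    rw [← e_nat_mul]
    congr 1
    ring
  rw [sum_congr rfl h1]
  split_ifs with hd
  · obtain ⟨k, rfl⟩ := hd
    have h2 : ((((q : ℤ) * k : ℤ)) : ℝ) / q = (k : ℤ) := by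
      push_cast
      field_simp
    rw [h2, e_int]
    simp
  · have h3 : e ((m : ℝ) / q) ≠ 1 := by
      rw [Ne, e_eq_one_iff]
      rintro ⟨k, hk⟩
      apply hd
      refine ⟨k, ?_⟩
      rw [div_eq_iff hq0] at hk
      have : (m : ℝ) = ((q * k : ℤ) : ℝ) := by push_cast; linarith
      exact_mod_cast this
    rw [geom_sum_eq h3, ← e_nat_mul]
    have h4 : (q : ℝ) * ((m : ℝ) / q) = (m : ℤ) := by field_simp
    rw [h4, e_int, sub_self, zero_div]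

/-- counting a residue class -/
lemma count_class {ι : Type} (s : Finset ι) (v : ι → ℤ) (q : ℕ) (hq : 1 ≤ q) (E : ℝ) (hE0 : 0 ≤ E)
    (hE : ∀ h : ℕ, 1 ≤ h → h < q → ‖∑ i ∈ s, e ((h : ℝ) / q * v i)‖ ≤ E) (r : ℤ) :
    |((s.filter (fun i => (q : ℤ) ∣ v i - r)).card : ℝ) - s.card / q| ≤ E := by
  have hq0 : (0 : ℝ) < q := by exact_mod_cast hq
  have hqc : (q : ℂ) ≠ 0 := by exact_mod_cast hq0.ne'
  have h1 : (q : ℂ) * ((s.filter (fun i => (q : ℤ) ∣ v i - r)).card : ℂ) =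
      ∑ h ∈ range q, ∑ i ∈ s, e ((h : ℝ) / q * ((v i - r : ℤ))) := by
    rw [sum_comm]
    have h2 : ∀ i ∈ s, ∑ h ∈ range q, e ((h : ℝ) / q * ((v i - r : ℤ))) =
        if (q : ℤ) ∣ v i - r then (q : ℂ) else 0 := fun i _ => orth q hq _
    rw [sum_congr rfl h2, ← sum_filter, sum_const, nsmul_eq_mul]
    ring
  have h3 : ∑ h ∈ range q, ∑ i ∈ s, e ((h : ℝ) / q * ((v i - r : ℤ))) =
      (s.card : ℂ) + ∑ h ∈ Ico 1 q, ∑ i ∈ s, e ((h : ℝ) / q * ((v i - r : ℤ))) := by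
    rw [range_eq_Ico, sum_eq_sum_Ico_succ_bot (by omega : 0 < q)]
    congr 1
    simp [e_zero]
  have h4 : ‖∑ h ∈ Ico 1 q, ∑ i ∈ s, e ((h : ℝ) / q * ((v i - r : ℤ)))‖ ≤ q * E := by
    refine (norm_sum_le _ _).trans ?_
    calc ∑ h ∈ Ico 1 q, ‖∑ i ∈ s, e ((h : ℝ) / q * ((v i - r : ℤ)))‖ ≤ ∑ h ∈ Ico 1 q, E := by
          refine sum_le_sum fun h hh => ?_
          rw [Finset.mem_Ico] at hh
          have h5 : ∑ i ∈ s, e ((h : ℝ) / q * ((v i - r : ℤ))) =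
              (∑ i ∈ s, e ((h : ℝ) / q * v i)) * e (-((h : ℝ) / q * r)) := by
            rw [sum_mul]
            refine sum_congr rfl fun i _ => ?_
            rw [← e_add]
            congr 1
            push_cast
            ring
          rw [h5, norm_mul, norm_e, mul_one]
          exact hE h hh.1 hh.2
      _ ≤ q * E := by
          rw [sum_const, nsmul_eq_mul, Nat.card_Ico]
          apply mul_le_mul_of_nonneg_right _ hE0
          have : q - 1 ≤ q := Nat.sub_le _ _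
          exact_mod_cast this
  have h5 : (q : ℂ) * ((((s.filter (fun i => (q : ℤ) ∣ v i - r)).card : ℝ) - s.card / q : ℝ) : ℂ) =
      ∑ h ∈ Ico 1 q, ∑ i ∈ s, e ((h : ℝ) / q * ((v i - r : ℤ))) := by
    have h6 := h1.trans h3
    rw [Complex.ofReal_sub, Complex.ofReal_div, Complex.ofReal_natCast, Complex.ofReal_natCast,
      Complex.ofReal_natCast, mul_sub, h6, mul_div_cancel₀ _ hqc, add_sub_cancel_left]
  have h7 : (q : ℝ) * |((s.filter (fun i => (q : ℤ) ∣ v i - r)).card : ℝ) - s.card / q| ≤ q * E := by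
    rw [← h5, norm_mul, Complex.norm_natCast, Complex.norm_real, Real.norm_eq_abs] at h4
    exact h4
  exact le_of_mul_le_mul_left h7 hq0

/-- the criterion for integers at the scale `M ^ η` -/
theorem crit_scaled_int (η : ℝ) (h0 : 0 < η) (h1 : η ≤ 1) : ∃ κ : ℝ, 0 < κ ∧ ∀ᶠ M : ℝ in atTop,
    ∀ (ι : Type) (s : Finset ι) (v : ι → ℤ), s.Nonempty → (∀ i ∈ s, M ^ η ≤ v i) →
    (∀ q h : ℕ, 1 ≤ h → h < q → (q : ℝ) ≤ M ^ η →
      ‖∑ i ∈ s, e ((h : ℝ) / q * v i)‖ ≤ s.card * M ^ (-η)) →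
    ∃ i ∈ s, ∀ q : ℕ, q.Prime → κ * ff M < |(q : ℝ) - v i| := by
  obtain ⟨κ, hκ, X₀, hc⟩ := crit
  have hev : ∀ᶠ X : ℝ in atTop, (Real.log X) ^ 2 ≤ X / 2 ∧ X ^ (1 / 10 : ℝ) < X / 2 := by
    have e3 : ∀ᶠ X : ℝ in atTop, (Real.log X) ^ 2 ≤ X / 2 := Pool.Agent.H256R2.SC.ev_log_sq
    have e4 : ∀ᶠ X : ℝ in atTop, X ^ (1 / 10 : ℝ) < X / 2 := by
      have := (tendsto_rpow_atTop (show (0 : ℝ) < 9 / 10 by norm_num)).eventually_gt_atTop 2
      filter_upwards [this, eventually_ge_atTop (1 : ℝ)] with X hX hX1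
      have h0 : 0 < X := by linarith
      have h2 : X = X ^ (9 / 10 : ℝ) * X ^ (1 / 10 : ℝ) := by
        rw [← Real.rpow_add h0]; norm_num
      have h3 : 0 < X ^ (1 / 10 : ℝ) := Real.rpow_pos_of_pos h0 _
      have h4 : 2 * X ^ (1 / 10 : ℝ) < X ^ (9 / 10 : ℝ) * X ^ (1 / 10 : ℝ) :=
        mul_lt_mul_of_pos_right hX h3
      rw [← h2] at h4
      linarith
    exact e3.and e4
  obtain ⟨X₁, hX₁⟩ := eventually_atTop.mp hev
  refine ⟨κ * (η / 32), by positivity, ?_⟩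
  filter_upwards [ff_compare η h0 h1, (tendsto_rpow_atTop h0).eventually_ge_atTop X₀,
    (tendsto_rpow_atTop h0).eventually_ge_atTop X₁,
    eventually_ge_atTop (1 : ℝ)] with M hM hMX hMX1 hM1
  intro ι s v hs hv hE
  have hM0 : 0 < M := by linarith
  obtain ⟨b3, b4⟩ := hX₁ _ hMX1
  obtain ⟨hfl', hcr⟩ := hc _ hMX
  have hfl : κ * ff (M ^ η) + 1 ≤ (Real.log (M ^ η)) ^ 2 := hfl'
  obtain ⟨i, hi, hi2⟩ := hcr ι s v hs (by
    intro q hq hqX r
    have hq' : (q : ℝ) ≤ M ^ η := hqX.trans (by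
      rw [← Real.rpow_mul hM0.le]
      apply Real.rpow_le_rpow_of_exponent_le hM1
      linarith)
    refine (count_class s v q hq (s.card * M ^ (-η)) (by positivity) (fun h hh1 hh2 =>
      hE q h hh1 hh2 hq') r).trans ?_
    apply mul_le_mul_of_nonneg_left _ (Nat.cast_nonneg _)
    rw [← Real.rpow_mul hM0.le]
    exact Real.rpow_le_rpow_of_exponent_le hM1 (by linarith))
  refine ⟨i, hi, fun q hq => ?_⟩
  have h5 := (hM.2 (M ^ η) le_rfl (by
    calc M ^ η ≤ M ^ (2 : ℝ) := Real.rpow_le_rpow_of_exponent_le hM1 (by linarith)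
      _ = M ^ 2 := by norm_num)).1
  have h6 : κ * (η / 32) * ff M ≤ κ * ff (M ^ η) := by
    calc κ * (η / 32) * ff M = κ * (η / 32 * ff M) := by ring
      _ ≤ _ := mul_le_mul_of_nonneg_left h5 hκ.le
  by_contra hcon
  rw [not_lt] at hcon
  have h7 : |((q : ℤ) : ℝ) - v i| ≤ κ * ff (M ^ η) + 1 := by
    push_cast
    linarith
  obtain ⟨p, hp, hpX, hpd⟩ := hi2 q h7
  have h8 : p = q := (Nat.prime_dvd_prime_iff_eq hp hq).mp (by exact_mod_cast hpd)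
  rw [h8] at hpX
  have h9 := hv i hi
  have h10 := abs_le.mp (hcon.trans h6)
  linarith [h10.1]

/-- from one member to many: the abstract removal argument -/
lemma many_aux (η ε M : ℝ) (hη : 0 < η) (hM1 : 1 ≤ M) (hM8 : 8 ≤ M ^ η) (B : Finset ℕ)
    (hB : M ^ ε / 2 ≤ B.card) (P : ℕ → Prop) [DecidablePred P]
    (hone : ∀ T ⊆ B, (B \ T).Nonempty → M ^ (ε - 5 * η) + T.card ≤ (B \ T).card * M ^ (-(4 * η)) →
      ∃ n ∈ B \ T, P n) :
    M ^ (ε - 6 * η) ≤ (B.filter P).card := by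
  by_contra hcon
  rw [not_le] at hcon
  have hM0 : 0 < M := by linarith
  set T := B.filter P with hT
  have hTB : T ⊆ B := filter_subset _ _
  have hp6 : M ^ (ε - 6 * η) ≤ M ^ (ε - 5 * η) :=
    Real.rpow_le_rpow_of_exponent_le hM1 (by linarith)
  have hp4 : 8 * M ^ (ε - 5 * η) ≤ M ^ (ε - 4 * η) := by
    have h1 : M ^ (ε - 4 * η) = M ^ η * M ^ (ε - 5 * η) := by
      rw [← Real.rpow_add hM0]; ring_nf
    rw [h1]
    exact mul_le_mul_of_nonneg_right hM8 (by positivity)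
  have hp0 : M ^ (ε - 4 * η) ≤ M ^ ε := Real.rpow_le_rpow_of_exponent_le hM1 (by linarith)
  have hp5 : 0 < M ^ (ε - 5 * η) := by positivity
  have hcard : ((B \ T).card : ℝ) = B.card - T.card := by
    rw [card_sdiff_of_subset hTB, Nat.cast_sub (card_le_card hTB)]
  have hge : M ^ ε / 4 ≤ ((B \ T).card : ℝ) := by
    rw [hcard]
    linarith
  have hpos : 0 < M ^ ε := by positivity
  have hne : (B \ T).Nonempty := by
    rw [← card_pos]
    have : (0 : ℝ) < (B \ T).card := by linarith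
    exact_mod_cast this
  obtain ⟨n, hn, hP⟩ := hone T hTB hne (by
    have h1 : M ^ ε * M ^ (-(4 * η)) = M ^ (ε - 4 * η) := by
      rw [← Real.rpow_add hM0]; ring_nf
    have h2 : M ^ ε / 4 * M ^ (-(4 * η)) ≤ (B \ T).card * M ^ (-(4 * η)) :=
      mul_le_mul_of_nonneg_right hge (by positivity)
    have h3 : M ^ ε / 4 * M ^ (-(4 * η)) = M ^ (ε - 4 * η) / 4 := by rw [← h1]; ring
    linarith)
  have h1 := mem_sdiff.1 hn
  exact h1.2 (by rw [hT, mem_filter]; exact ⟨h1.1, hP⟩)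

lemma sdiff_sum (B T : Finset ℕ) (hTB : T ⊆ B) (u : ℕ → ℝ) (E : ℝ)
    (hE : ‖∑ n ∈ B, e (u n)‖ ≤ E) : ‖∑ n ∈ B \ T, e (u n)‖ ≤ E + T.card := by
  have h2 : ∑ i ∈ B \ T, e (u i) = ∑ i ∈ B, e (u i) - ∑ i ∈ T, e (u i) := by
    rw [← sum_sdiff hTB, add_sub_cancel_right]
  have h3 : ‖∑ i ∈ T, e (u i)‖ ≤ T.card := by
    refine (norm_sum_le _ _).trans (le_of_eq ?_)
    simp only [norm_e]
    simp
  rw [h2]
  exact (norm_sub_le _ _).trans (add_le_add hE h3)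

/-- real numbers -/
theorem many_real (η ε : ℝ) (hη : 0 < η) (hη1 : η ≤ 1) : ∃ κ : ℝ, 0 < κ ∧ ∀ᶠ M : ℝ in atTop,
    ∀ (B : Finset ℕ) (u : ℕ → ℝ), M ^ ε / 2 ≤ B.card → (∀ n ∈ B, M ^ η ≤ u n) →
    (∀ q h : ℕ, 1 ≤ q → (q : ℝ) ≤ M ^ η → 1 ≤ h → (h : ℝ) ≤ M ^ (4 * η) →
      ‖∑ n ∈ B, e ((h : ℝ) / q * u n)‖ ≤ M ^ (ε - 5 * η)) →
    ∀ G : Finset ℕ, (∀ n ∈ B, (∀ q : ℕ, q.Prime → κ * ff M < |(q : ℝ) - u n|) → n ∈ G) →
    M ^ (ε - 6 * η) ≤ (G.card : ℝ) := by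
  classical
  obtain ⟨κ, hκ, hc⟩ := crit_scaled η hη hη1
  refine ⟨κ, hκ, ?_⟩
  filter_upwards [hc, (tendsto_rpow_atTop hη).eventually_ge_atTop 8, eventually_ge_atTop 1]
    with M hM hM8 hM1
  intro B u hB hu hE G hG
  have h1 := many_aux η ε M hη hM1 hM8 B hB (fun n => n ∈ G)
    (by
      intro T hT hne hF
      obtain ⟨i, hi, hi2⟩ := hM ℕ (B \ T) u hne (fun i hi => hu i (mem_sdiff.1 hi).1)
        (fun q h hq hqM hh hhM => (sdiff_sum B T hT (fun n => (h : ℝ) / q * u n) _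
          (hE q h hq hqM hh hhM)).trans hF)
      exact ⟨i, hi, hG i (mem_sdiff.1 hi).1 hi2⟩)
  refine h1.trans ?_
  exact_mod_cast card_le_card (fun n hn => (mem_filter.1 hn).2)

/-- integers -/
theorem many_int (η ε : ℝ) (hη : 0 < η) (hη1 : η ≤ 1) : ∃ κ : ℝ, 0 < κ ∧ ∀ᶠ M : ℝ in atTop,
    ∀ (B : Finset ℕ) (v : ℕ → ℤ), M ^ ε / 2 ≤ B.card → (∀ n ∈ B, M ^ η ≤ v n) →
    (∀ q h : ℕ, 1 ≤ h → h < q → (q : ℝ) ≤ M ^ η →
      ‖∑ n ∈ B, e ((h : ℝ) / q * v n)‖ ≤ M ^ (ε - 5 * η)) →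
    ∀ G : Finset ℕ, (∀ n ∈ B, (∀ q : ℕ, q.Prime → κ * ff M < |(q : ℝ) - v n|) → n ∈ G) →
    M ^ (ε - 6 * η) ≤ (G.card : ℝ) := by
  classical
  obtain ⟨κ, hκ, hc⟩ := crit_scaled_int η hη hη1
  refine ⟨κ, hκ, ?_⟩
  filter_upwards [hc, (tendsto_rpow_atTop hη).eventually_ge_atTop 8, eventually_ge_atTop 1]
    with M hM hM8 hM1
  intro B v hB hv hE G hG
  have h1 := many_aux η ε M hη hM1 hM8 B hB (fun n => n ∈ G)
    (by
      intro T hT hne hF
      obtain ⟨i, hi, hi2⟩ := hM ℕ (B \ T) v hne (fun i hi => hv i (mem_sdiff.1 hi).1)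
        (fun q h hh hhq hqM => ((sdiff_sum B T hT (fun n => (h : ℝ) / q * v n) _
          (hE q h hh hhq hqM)).trans hF).trans (mul_le_mul_of_nonneg_left
            (Real.rpow_le_rpow_of_exponent_le hM1 (by linarith)) (Nat.cast_nonneg _)))
      exact ⟨i, hi, hG i (mem_sdiff.1 hi).1 hi2⟩)
  refine h1.trans ?_
  exact_mod_cast card_le_card (fun n hn => (mem_filter.1 hn).2)

end Pool.Agent.X33.RW
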