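import Pool.Agent.X33.RW.Mgf

set_option autoImplicit false

/-! The exponential sums along a random walk are small in all short windows. -/

namespace Pool.Agent.X33.RW

open Finset Filter MeasureTheory ProbabilityTheory
open scoped ENNReal NNReal
open Pool.Agent.H469R2.NK (e norm_e e_add e_zero)

lemma continuous_e : Continuous e := by
  unfold e
  fun_prop

section gen

variable {Ω : Type*} [mΩ : MeasurableSpace Ω] (μ : Measure Ω) [IsProbabilityMeasure μ]

lemma integrable_e (Y : Ω → ℝ) (hY : Measurable Y) (θ : ℝ) :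
    Integrable (fun ω => e (θ * Y ω)) μ := by
  refine Integrable.of_bound
    ((continuous_e.measurable.comp (hY.const_mul θ)).aestronglyMeasurable) 1
    (Eventually.of_forall fun ω => ?_)
  rw [norm_e]

lemma norm_phi_le (Y : Ω → ℝ) (θ : ℝ) : ‖∫ ω, e (θ * Y ω) ∂μ‖ ≤ 1 := by
  refine (norm_integral_le_integral_norm _).trans (le_of_eq ?_)
  simp only [norm_e]
  simp

/-- the martingale part -/
noncomputable def Z (X : ℕ → Ω → ℝ) (φ α : ℕ → ℂ) (θ : ℝ) (a L : ℕ) (ω : Ω) : ℂ :=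
  ∑ k ∈ Ico a (a + L), α k * (e (θ * S X k ω) * (e (θ * X k ω) - φ k))

theorem tail_Z (X : ℕ → Ω → ℝ) (hm : ∀ i, Measurable (X i)) (hind : iIndepFun X μ)
    (φ α : ℕ → ℂ) (θ : ℝ) (hφ : ∀ i, ∫ ω, e (θ * X i ω) ∂μ = φ i) (hα : ∀ i, ‖α i‖ ≤ 1)
    (a L : ℕ) (hL : 1 ≤ L) (l : ℝ) (hl : 0 ≤ l) :
    μ {ω | 2 * l ≤ ‖Z X φ α θ a L ω‖} ≤ 4 * ENNReal.ofReal (Real.exp (-(l ^ 2 / (8 * L)))) := by
  have hφ1 : ∀ i, ‖φ i‖ ≤ 1 := by
    intro i
    rw [← hφ i]
    exact norm_phi_le μ (X i) θ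
  have key : ∀ w : ℂ, ‖w‖ = 1 → μ {ω | l ≤ (w * Z X φ α θ a L ω).re} ≤
      ENNReal.ofReal (Real.exp (-(l ^ 2 / (8 * L)))) := by
    intro w hw
    set g : ℕ → ℝ → ℝ → ℝ := fun k s x => (w * (α k * (e (θ * s) * (e (θ * x) - φ k)))).re with hg
    have hgc : ∀ k, Continuous (Function.uncurry (g k)) := by
      intro k
      have h1 : Continuous (fun p : ℝ × ℝ => e (θ * p.1)) :=
        continuous_e.comp (continuous_fst.const_mul θ)
      have h2 : Continuous (fun p : ℝ × ℝ => e (θ * p.2)) :=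
        continuous_e.comp (continuous_snd.const_mul θ)
      exact Complex.continuous_re.comp (continuous_const.mul (continuous_const.mul
        (h1.mul (h2.sub continuous_const))))
    have h1 := tail μ X hm hind g (fun k => (hgc k).measurable)
      (by
        intro k s x
        refine (Complex.abs_re_le_norm _).trans ?_
        rw [norm_mul, norm_mul, norm_mul, hw, norm_e, one_mul, one_mul]
        have h2 : ‖e (θ * x) - φ k‖ ≤ 2 := by
          refine (norm_sub_le _ _).trans ?_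
          rw [norm_e]
          linarith [hφ1 k]
        calc ‖α k‖ * ‖e (θ * x) - φ k‖ ≤ 1 * 2 := by
              gcongr
              exact hα k
          _ = 2 := by norm_num)
      (by
        intro i s
        have h2 : Integrable (fun ω => w * (α i * (e (θ * s) * (e (θ * X i ω) - φ i)))) μ :=
          ((((integrable_e μ (X i) (hm i) θ).sub (integrable_const (φ i))).const_mul _).const_mul
            _).const_mul _
        have h3 := Complex.reCLM.integral_comp_comm h2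
        simp only [Complex.reCLM_apply] at h3
        rw [hg]
        dsimp only
        rw [h3, integral_const_mul, integral_const_mul, integral_const_mul,
          integral_sub (integrable_e μ (X i) (hm i) θ) (integrable_const (φ i)), hφ i]
        simp)
      a L hL l hl
    refine le_trans (measure_mono ?_) h1
    intro ω hω
    have h4 : (w * Z X φ α θ a L ω).re = ∑ k ∈ Ico a (a + L), g k (S X k ω) (X k ω) := by
      unfold Z
      rw [mul_sum, Complex.re_sum]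
    have h5 : l ≤ (w * Z X φ α θ a L ω).re := hω
    rw [h4] at h5
    exact h5
  have hsub : {ω | 2 * l ≤ ‖Z X φ α θ a L ω‖} ⊆
      (({ω | l ≤ ((1 : ℂ) * Z X φ α θ a L ω).re} ∪ {ω | l ≤ ((-1 : ℂ) * Z X φ α θ a L ω).re}) ∪
      ({ω | l ≤ (Complex.I * Z X φ α θ a L ω).re} ∪
        {ω | l ≤ ((-Complex.I) * Z X φ α θ a L ω).re})) := by
    intro ω hω
    have hω' : 2 * l ≤ ‖Z X φ α θ a L ω‖ := hω
    by_contra hcon
    simp only [Set.mem_union, Set.mem_ofPred_eq, not_or, not_le] at hcon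
    obtain ⟨⟨h1, h2⟩, h3, h4⟩ := hcon
    simp only [one_mul, neg_mul, Complex.neg_re, Complex.mul_re, Complex.I_re, zero_mul,
      Complex.I_im, zero_sub, neg_neg] at h1 h2 h3 h4
    have h5 := Complex.norm_le_abs_re_add_abs_im (Z X φ α θ a L ω)
    have h6 : |(Z X φ α θ a L ω).re| < l := abs_lt.2 ⟨by linarith, h1⟩
    have h7 : |(Z X φ α θ a L ω).im| < l := abs_lt.2 ⟨by linarith, by linarith⟩
    linarith
  refine (measure_mono hsub).trans ?_
  refine (measure_union_le _ _).trans ?_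
  refine (add_le_add (measure_union_le _ _) (measure_union_le _ _)).trans ?_
  refine (add_le_add (add_le_add (key 1 (by simp)) (key (-1) (by simp)))
    (add_le_add (key Complex.I (by simp)) (key (-Complex.I) (by simp)))).trans (le_of_eq ?_)
  ring

omit [IsProbabilityMeasure μ] mΩ in
/-- the telescoping identity: `A k = 1 + φ k * A (k + 1)` and `α k = A (k + 1) / B` -/
lemma tele (X : ℕ → Ω → ℝ) (φ α A : ℕ → ℂ) (B : ℝ) (θ : ℝ) (a L : ℕ) (ω : Ω)
    (hA : ∀ k, A k = 1 + φ k * A (k + 1)) (hα : ∀ k, A (k + 1) = B * α k) :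
    ∑ k ∈ Ico a (a + L), e (θ * S X k ω) =
      B * Z X φ α θ a L ω + A a * e (θ * S X a ω) - A (a + L) * e (θ * S X (a + L) ω) := by
  unfold Z
  have h1 : ∀ k, e (θ * S X k ω) = B * (α k * (e (θ * S X k ω) * (e (θ * X k ω) - φ k))) +
      (A k * e (θ * S X k ω) - A (k + 1) * e (θ * S X (k + 1) ω)) := by
    intro k
    have h2 : θ * S X (k + 1) ω = θ * S X k ω + θ * X k ω := by
      unfold S
      rw [sum_range_succ]
      ring
    rw [h2, e_add]
    linear_combination (-1) * e (θ * S X k ω) * hA k +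
      (e (θ * S X k ω) * (e (θ * X k ω) - φ k)) * hα k
  calc ∑ k ∈ Ico a (a + L), e (θ * S X k ω) = ∑ k ∈ Ico a (a + L),
      (B * (α k * (e (θ * S X k ω) * (e (θ * X k ω) - φ k))) +
      (A k * e (θ * S X k ω) - A (k + 1) * e (θ * S X (k + 1) ω))) :=
        sum_congr rfl fun k _ => h1 k
    _ = _ := by
      rw [sum_add_distrib, ← mul_sum]
      have h4 : ∑ k ∈ Ico a (a + L), (A (k + 1) * e (θ * S X (k + 1) ω) - A k * e (θ * S X k ω)) =
          A (a + L) * e (θ * S X (a + L) ω) - A a * e (θ * S X a ω) :=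
        sum_Ico_sub (fun k => A k * e (θ * S X k ω)) (by omega)
      have h3 : ∑ k ∈ Ico a (a + L), (A k * e (θ * S X k ω) - A (k + 1) * e (θ * S X (k + 1) ω)) =
          A a * e (θ * S X a ω) - A (a + L) * e (θ * S X (a + L) ω) := by
        rw [← neg_sub (A (a + L) * e (θ * S X (a + L) ω)), ← h4, ← sum_neg_distrib]
        exact sum_congr rfl fun k _ => by ring
      rw [h3]
      ring

omit [IsProbabilityMeasure μ] mΩ in
lemma norm_tele (X : ℕ → Ω → ℝ) (φ α A : ℕ → ℂ) (B : ℝ) (hB : 0 ≤ B) (θ : ℝ) (a L : ℕ) (ω : Ω)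
    (hA : ∀ k, A k = 1 + φ k * A (k + 1)) (hα : ∀ k, A (k + 1) = B * α k) (hAB : ∀ k, ‖A k‖ ≤ B) :
    ‖∑ k ∈ Ico a (a + L), e (θ * S X k ω)‖ ≤ B * (‖Z X φ α θ a L ω‖ + 2) := by
  rw [tele X φ α A B θ a L ω hA hα]
  refine (norm_sub_le _ _).trans ?_
  refine (add_le_add_left (norm_add_le _ _) _).trans ?_
  rw [norm_mul, norm_mul, norm_mul, norm_e, norm_e, Complex.norm_real, Real.norm_of_nonneg hB]
  have h1 := hAB a
  have h2 := hAB (a + L)
  linarith

lemma ev_exp (ε : ℝ) (hε : 0 < ε) : ∀ᶠ x : ℝ in atTop,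
    32 * x ^ 8 ≤ Real.exp (x ^ (ε / 2) / 8) := by
  have h1 := (isLittleO_rpow_exp_pos_mul_atTop (16 / ε) (show (0 : ℝ) < 1 / 8 by norm_num)).bound
    (show (0 : ℝ) < 1 / 32 by norm_num)
  have h2 := (tendsto_rpow_atTop (show (0 : ℝ) < ε / 2 by positivity)).eventually h1
  filter_upwards [h2, eventually_ge_atTop 1] with x hx hx1
  have hx0 : 0 < x := by linarith
  rw [Real.norm_eq_abs, Real.norm_eq_abs, abs_of_nonneg (Real.exp_pos _).le,
    abs_of_nonneg (by positivity), ← Real.rpow_mul hx0.le] at hx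
  have h3 : ε / 2 * (16 / ε) = (8 : ℕ) := by
    push_cast
    field_simp
    norm_num
  rw [h3, Real.rpow_natCast] at hx
  have h4 : 1 / 8 * x ^ (ε / 2) = x ^ (ε / 2) / 8 := by ring
  rw [h4] at hx
  linarith

theorem ae_Z (X : ℕ → Ω → ℝ) (hm : ∀ i, Measurable (X i)) (hind : iIndepFun X μ)
    (φ : ℕ → ℝ → ℂ) (hφ : ∀ i θ, ∫ ω, e (θ * X i ω) ∂μ = φ i θ) (α : ℕ → ℕ → ℕ → ℂ)
    (hα : ∀ h q i, ‖α h q i‖ ≤ 1) (ε : ℝ) (hε : 0 < ε) :
    ∀ᵐ ω ∂μ, ∀ᶠ N : ℕ in atTop, ∀ a ≤ N, ∀ q ≤ N, ∀ h ≤ N ^ 4,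
      ‖Z X (fun i => φ i ((h : ℝ) / q)) (α h q) ((h : ℝ) / q) (a + 1) ⌊(N : ℝ) ^ ε⌋₊ ω‖ < 2 * (N : ℝ) ^ (3 * ε / 4) := by
  set s : ℕ → Set Ω := fun N => if 1 ≤ N then ⋃ a ∈ range (N + 1), ⋃ q ∈ range (N + 1),
    ⋃ h ∈ range (N ^ 4 + 1), {ω | 2 * (N : ℝ) ^ (3 * ε / 4) ≤
      ‖Z X (fun i => φ i ((h : ℝ) / q)) (α h q) ((h : ℝ) / q) (a + 1) ⌊(N : ℝ) ^ ε⌋₊ ω‖} else ∅ with hs
  set b : ℕ → ℝ := fun N => ((N + 1 : ℕ) : ℝ) * (((N + 1 : ℕ) : ℝ) * (((N ^ 4 + 1 : ℕ) : ℝ) *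
    (4 * Real.exp (-((N : ℝ) ^ (ε / 2) / 8))))) with hb
  have hsum : Summable b := by
    refine Summable.of_norm_bounded_eventually_nat
      (g := fun N : ℕ => 1 / ((N : ℝ) ^ 2)) (Real.summable_one_div_nat_pow.2 (by norm_num)) ?_
    filter_upwards [tendsto_natCast_atTop_atTop.eventually (ev_exp ε hε),
      eventually_ge_atTop 1] with N hN hN1
    have hNr : (1 : ℝ) ≤ N := by exact_mod_cast hN1
    have hN0 : (0 : ℝ) < N := by linarith
    have hb0 : 0 ≤ b N := by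
      rw [hb]
      positivity
    rw [Real.norm_of_nonneg hb0, le_div_iff₀ (by positivity)]
    have h1 : ((N + 1 : ℕ) : ℝ) ≤ 2 * N := by push_cast; linarith
    have h2 : ((N ^ 4 + 1 : ℕ) : ℝ) ≤ 2 * (N : ℝ) ^ 4 := by
      push_cast
      have : (1 : ℝ) ≤ (N : ℝ) ^ 4 := one_le_pow₀ hNr
      linarith
    have h3 : b N ≤ (2 * N) * ((2 * N) * ((2 * (N : ℝ) ^ 4) *
        (4 * Real.exp (-((N : ℝ) ^ (ε / 2) / 8))))) := by
      rw [hb]
      dsimp only
      gcongr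
    have h4 : Real.exp (-((N : ℝ) ^ (ε / 2) / 8)) * Real.exp ((N : ℝ) ^ (ε / 2) / 8) = 1 := by
      rw [← Real.exp_add]
      simp
    calc b N * (N : ℝ) ^ 2 ≤ ((2 * N) * ((2 * N) * ((2 * (N : ℝ) ^ 4) *
        (4 * Real.exp (-((N : ℝ) ^ (ε / 2) / 8)))))) * (N : ℝ) ^ 2 := by gcongr
      _ = Real.exp (-((N : ℝ) ^ (ε / 2) / 8)) * (32 * (N : ℝ) ^ 8) := by ring
      _ ≤ Real.exp (-((N : ℝ) ^ (ε / 2) / 8)) * Real.exp ((N : ℝ) ^ (ε / 2) / 8) := by gcongr
      _ = 1 := h4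
  have hμ : ∀ N, μ (s N) ≤ ENNReal.ofReal (b N) := by
    intro N
    by_cases hN1 : 1 ≤ N
    · have hNr : (1 : ℝ) ≤ N := by exact_mod_cast hN1
      have hN0 : (0 : ℝ) < N := by linarith
      have hL1 : 1 ≤ ⌊(N : ℝ) ^ ε⌋₊ := by
        apply Nat.le_floor
        push_cast
        exact Real.one_le_rpow hNr hε.le
      have hLN : (⌊(N : ℝ) ^ ε⌋₊ : ℝ) ≤ (N : ℝ) ^ ε := Nat.floor_le (by positivity)
      have hone : ∀ a q h : ℕ, μ {ω | 2 * (N : ℝ) ^ (3 * ε / 4) ≤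
          ‖Z X (fun i => φ i ((h : ℝ) / q)) (α h q) ((h : ℝ) / q) (a + 1) ⌊(N : ℝ) ^ ε⌋₊ ω‖} ≤
          ENNReal.ofReal (4 * Real.exp (-((N : ℝ) ^ (ε / 2) / 8))) := by
        intro a q h
        refine (tail_Z μ X hm hind (fun i => φ i ((h : ℝ) / q)) (α h q) ((h : ℝ) / q)
          (fun i => hφ i _) (hα h q) (a + 1) _ hL1
          ((N : ℝ) ^ (3 * ε / 4)) (by positivity)).trans ?_
        rw [ENNReal.ofReal_mul (by norm_num)]
        have h4 : ENNReal.ofReal 4 = 4 := by norm_num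
        rw [h4]
        refine mul_le_mul' le_rfl (ENNReal.ofReal_le_ofReal (Real.exp_le_exp.2 (neg_le_neg ?_)))
        rw [show (8 : ℝ) * (⌊(N : ℝ) ^ ε⌋₊ : ℝ) = (⌊(N : ℝ) ^ ε⌋₊ : ℝ) * 8 by ring, ← div_div]
        refine div_le_div_of_nonneg_right ?_ (by norm_num)
        have hLr : (0 : ℝ) < (⌊(N : ℝ) ^ ε⌋₊ : ℝ) := by exact_mod_cast hL1
        rw [le_div_iff₀ hLr]
        calc (N : ℝ) ^ (ε / 2) * (⌊(N : ℝ) ^ ε⌋₊ : ℝ) ≤ (N : ℝ) ^ (ε / 2) * (N : ℝ) ^ ε := by gcongr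
          _ = ((N : ℝ) ^ (3 * ε / 4)) ^ 2 := by
            rw [← Real.rpow_add hN0, ← Real.rpow_natCast, ← Real.rpow_mul hN0.le]
            congr 1
            push_cast
            ring
      rw [hs]
      dsimp only
      rw [if_pos hN1]
      have sum3 : ∀ a q : ℕ, μ (⋃ h ∈ range (N ^ 4 + 1), {ω | 2 * (N : ℝ) ^ (3 * ε / 4) ≤
          ‖Z X (fun i => φ i ((h : ℝ) / q)) (α h q) ((h : ℝ) / q) (a + 1) ⌊(N : ℝ) ^ ε⌋₊ ω‖}) ≤
          ENNReal.ofReal (((N ^ 4 + 1 : ℕ) : ℝ) * (4 * Real.exp (-((N : ℝ) ^ (ε / 2) / 8)))) := by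
        intro a q
        refine (measure_biUnion_finset_le _ _).trans ?_
        refine (sum_le_sum fun h _ => hone a q h).trans ?_
        conv_rhs => rw [ENNReal.ofReal_mul (Nat.cast_nonneg _), ENNReal.ofReal_natCast]
        rw [sum_const, card_range, nsmul_eq_mul]
      have sum2 : ∀ a : ℕ, μ (⋃ q ∈ range (N + 1), ⋃ h ∈ range (N ^ 4 + 1),
          {ω | 2 * (N : ℝ) ^ (3 * ε / 4) ≤
          ‖Z X (fun i => φ i ((h : ℝ) / q)) (α h q) ((h : ℝ) / q) (a + 1) ⌊(N : ℝ) ^ ε⌋₊ ω‖}) ≤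
          ENNReal.ofReal (((N + 1 : ℕ) : ℝ) * (((N ^ 4 + 1 : ℕ) : ℝ) *
            (4 * Real.exp (-((N : ℝ) ^ (ε / 2) / 8))))) := by
        intro a
        refine (measure_biUnion_finset_le _ _).trans ?_
        refine (sum_le_sum fun q _ => sum3 a q).trans ?_
        conv_rhs => rw [ENNReal.ofReal_mul (Nat.cast_nonneg _), ENNReal.ofReal_natCast]
        rw [sum_const, card_range, nsmul_eq_mul]
      refine (measure_biUnion_finset_le _ _).trans ?_
      refine (sum_le_sum fun a _ => sum2 a).trans ?_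
      rw [hb]
      dsimp only
      conv_rhs => rw [ENNReal.ofReal_mul (Nat.cast_nonneg _), ENNReal.ofReal_natCast]
      rw [sum_const, card_range, nsmul_eq_mul]
    · rw [hs]
      dsimp only
      rw [if_neg hN1, measure_empty]
      exact bot_le
  have hfin : (∑' N, μ (s N)) ≠ ∞ := by
    refine ne_top_of_le_ne_top hsum.tsum_ofReal_ne_top (ENNReal.tsum_le_tsum hμ)
  filter_upwards [ae_eventually_notMem hfin] with ω hω
  filter_upwards [hω, eventually_ge_atTop 1] with N hN hN1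
  intro a ha q hq h hh
  rw [hs] at hN
  dsimp only at hN
  rw [if_pos hN1] at hN
  simp only [Set.mem_iUnion, not_exists, Set.mem_ofPred_eq, not_le] at hN
  exact hN a (mem_range.2 (by omega)) q (mem_range.2 (by omega)) h (mem_range.2 (by omega))

end gen

end Pool.Agent.X33.RW
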