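import Pool.Agent.X33.RW.Dev

set_option autoImplicit false

/-! Random walks cannot avoid record gaps. -/

namespace Pool.Agent.X33.RW

open Finset Filter MeasureTheory ProbabilityTheory
open scoped ENNReal NNReal
open Pool.Agent.H469R2.NK (e norm_e e_add e_zero)
open Pool.Agent.W147.PS (ff)

section gen

variable {Ω : Type*} [mΩ : MeasurableSpace Ω] (μ : Measure Ω) [IsProbabilityMeasure μ]

omit mΩ in
lemma pot_const (φ : ℂ) (c D : ℝ) (hc : 0 < c) (hD : c ≤ ‖1 - φ‖ * D) :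
    ∃ U : ℕ → ℂ, (∀ k, U k = 1 + φ * U (k + 1)) ∧ ∀ k, ‖U k‖ ≤ D / c := by
  have hne : (1 - φ) ≠ 0 := by
    intro h
    rw [h, norm_zero, zero_mul] at hD
    linarith
  have hpos : 0 < ‖1 - φ‖ := norm_pos_iff.2 hne
  refine ⟨fun _ => (1 - φ)⁻¹, fun k => ?_, fun k => ?_⟩
  · have h1 : (1 - φ) * (1 - φ)⁻¹ = 1 := mul_inv_cancel₀ hne
    linear_combination h1
  · rw [norm_inv, inv_le_comm₀ hpos (by
      by_contra hcon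
      rw [not_lt] at hcon
      have h1 : D ≤ 0 := by
        rcases le_or_gt D 0 with h | h
        · exact h
        · exact absurd (div_pos h hc) (not_lt.2 hcon)
      nlinarith), inv_div, div_le_iff₀ (by
      by_contra hcon
      rw [not_lt] at hcon
      nlinarith)]
    exact hD

lemma pot_lt (φ : ℕ → ℂ) (δ : ℝ) (hδ : 0 < δ) (hφ : ∀ k, ‖φ k‖ ≤ 1 - δ) :
    ∃ U : ℕ → ℂ, (∀ k, U k = 1 + φ k * U (k + 1)) ∧ ∀ k, ‖U k‖ ≤ 1 / δ := by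
  have hr0 : 0 ≤ 1 - δ := (norm_nonneg _).trans (hφ 0)
  have hr1 : 1 - δ < 1 := by linarith
  have hf : ∀ k j, ‖∏ i ∈ range j, φ (k + i)‖ ≤ (1 - δ) ^ j := by
    intro k j
    rw [norm_prod]
    calc ∏ i ∈ range j, ‖φ (k + i)‖ ≤ ∏ i ∈ range j, (1 - δ) :=
          prod_le_prod (fun _ _ => norm_nonneg _) (fun i _ => hφ _)
      _ = (1 - δ) ^ j := by rw [prod_const, card_range]
  have hgeo := summable_geometric_of_lt_one hr0 hr1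
  have hsum : ∀ k, Summable (fun j => ∏ i ∈ range j, φ (k + i)) := fun k =>
    Summable.of_norm_bounded hgeo (hf k)
  refine ⟨fun k => ∑' j, ∏ i ∈ range j, φ (k + i), fun k => ?_, fun k => ?_⟩
  · dsimp only
    rw [(hsum k).tsum_eq_zero_add]
    simp only [range_zero, prod_empty]
    rw [← tsum_mul_left]
    congr 1
    refine tsum_congr fun j => ?_
    rw [prod_range_succ', add_zero, mul_comm]
    congr 1
    refine prod_congr rfl fun i _ => ?_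
    congr 1
    ring
  · calc ‖∑' j, ∏ i ∈ range j, φ (k + i)‖ ≤ ∑' j, (1 - δ) ^ j :=
          tsum_of_norm_bounded hgeo.hasSum (hf k)
      _ = 1 / δ := by
        rw [tsum_geometric_of_lt_one hr0 hr1, one_div]
        congr 1
        ring

theorem sum_small (X : ℕ → Ω → ℝ) (hm : ∀ i, Measurable (X i)) (hind : iIndepFun X μ)
    (φ : ℕ → ℝ → ℂ) (hφ : ∀ i θ, ∫ ω, e (θ * X i ω) ∂μ = φ i θ) (ε η c : ℝ) (A : ℕ) (hε : 0 < ε)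
    (hη : 0 < η) (hη1 : η ≤ 1) (hc : 0 < c) (hAη : (5 * A + 6) * η ≤ ε / 4) (P : ℕ → ℕ → Prop)
    (hP : ∀ h q : ℕ, 1 ≤ h → 1 ≤ q → P h q → ∃ U : ℕ → ℂ,
      (∀ k, U k = 1 + φ k ((h : ℝ) / q) * U (k + 1)) ∧ ∀ k, ‖U k‖ ≤ ((h : ℝ) * q) ^ A / c) :
    ∀ᵐ ω ∂μ, ∀ᶠ N : ℕ in atTop, ∀ a ≤ N, ∀ q h : ℕ, 1 ≤ q → (q : ℝ) ≤ (N : ℝ) ^ η → 1 ≤ h →
      (h : ℝ) ≤ (N : ℝ) ^ (4 * η) → P h q →
      ‖∑ n ∈ Ico (a + 1) (a + 1 + ⌊(N : ℝ) ^ ε⌋₊), e ((h : ℝ) / q * S X n ω)‖ ≤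
        (N : ℝ) ^ (ε - 5 * η) := by
  have hα : ∀ h q : ℕ, ∃ α : ℕ → ℂ, (∀ k, ‖α k‖ ≤ 1) ∧ (1 ≤ h → 1 ≤ q → P h q → ∃ U : ℕ → ℂ,
      (∀ k, U k = 1 + φ k ((h : ℝ) / q) * U (k + 1)) ∧ (∀ k, ‖U k‖ ≤ ((h : ℝ) * q) ^ A / c) ∧
      ∀ k, U (k + 1) = ((((h : ℝ) * q) ^ A / c : ℝ) : ℂ) * α k) := by
    intro h q
    by_cases hPh : 1 ≤ h ∧ 1 ≤ q ∧ P h q
    · obtain ⟨U, hU1, hU2⟩ := hP h q hPh.1 hPh.2.1 hPh.2.2
      have hB : 0 < ((h : ℝ) * q) ^ A / c := by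
        have h1 : (0 : ℝ) < h := by exact_mod_cast hPh.1
        have h2 : (0 : ℝ) < q := by exact_mod_cast hPh.2.1
        positivity
      refine ⟨fun k => U (k + 1) / ((((h : ℝ) * q) ^ A / c : ℝ) : ℂ), fun k => ?_,
        fun _ _ _ => ⟨U, hU1, hU2, fun k => ?_⟩⟩
      · rw [norm_div, Complex.norm_real, Real.norm_of_nonneg hB.le, div_le_one hB]
        exact hU2 _
      · rw [mul_div_cancel₀]
        exact_mod_cast hB.ne'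
    · refine ⟨fun _ => 0, fun k => by simp, fun h1 h2 h3 => absurd ⟨h1, h2, h3⟩ hPh⟩
  choose α hα1 hα2 using hα
  filter_upwards [ae_Z μ X hm hind φ hφ α hα1 ε hε] with ω hω
  filter_upwards [hω, tendsto_natCast_atTop_atTop.eventually
    ((tendsto_rpow_atTop hη).eventually_ge_atTop (4 / c)), eventually_ge_atTop 1] with N hN hNc hN1
  intro a ha q h hq hqN hh hhN hPhq
  have hNr : (1 : ℝ) ≤ N := by exact_mod_cast hN1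
  have hN0 : (0 : ℝ) < N := by linarith
  have hqN' : q ≤ N := by
    have h1 : (q : ℝ) ≤ (N : ℝ) ^ (1 : ℝ) := hqN.trans (Real.rpow_le_rpow_of_exponent_le hNr hη1)
    rw [Real.rpow_one] at h1
    exact_mod_cast h1
  have hhN' : h ≤ N ^ 4 := by
    have h1 : (h : ℝ) ≤ (N : ℝ) ^ ((4 : ℕ) : ℝ) :=
      hhN.trans (Real.rpow_le_rpow_of_exponent_le hNr (by push_cast; linarith))
    rw [Real.rpow_natCast] at h1
    exact_mod_cast h1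
  have hZ := hN a ha q hqN' h hhN'
  obtain ⟨U, hU1, hU2, hU3⟩ := hα2 h q hh hq hPhq
  have hT := norm_tele X (fun i => φ i ((h : ℝ) / q)) (α h q) U (((h : ℝ) * q) ^ A / c)
    (by positivity) ((h : ℝ) / q) (a + 1) ⌊(N : ℝ) ^ ε⌋₊ ω hU1 hU3 hU2
  refine hT.trans ?_
  have h34 : (1 : ℝ) ≤ (N : ℝ) ^ (3 * ε / 4) := Real.one_le_rpow hNr (by positivity)
  have hhq : ((h : ℝ) * q) ^ A ≤ (N : ℝ) ^ (5 * η * A) := by
    have h1 : (h : ℝ) * q ≤ (N : ℝ) ^ (5 * η) := by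
      calc (h : ℝ) * q ≤ (N : ℝ) ^ (4 * η) * (N : ℝ) ^ η := by gcongr
        _ = _ := by
          rw [← Real.rpow_add hN0]
          ring_nf
    calc ((h : ℝ) * q) ^ A ≤ ((N : ℝ) ^ (5 * η)) ^ A := by gcongr
      _ = _ := by rw [← Real.rpow_natCast, ← Real.rpow_mul hN0.le]
  set zz := ‖Z X (fun i => φ i ((h : ℝ) / q)) (α h q) ((h : ℝ) / q) (a + 1) ⌊(N : ℝ) ^ ε⌋₊ ω‖
    with hzz
  have hz4 : zz + 2 ≤ 4 * (N : ℝ) ^ (3 * ε / 4) := by linarith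
  calc ((h : ℝ) * q) ^ A / c * (zz + 2) ≤
      (N : ℝ) ^ (5 * η * A) / c * (4 * (N : ℝ) ^ (3 * ε / 4)) := by gcongr
    _ = (4 / c) * ((N : ℝ) ^ (3 * ε / 4) * (N : ℝ) ^ (5 * η * A)) := by ring
    _ ≤ (N : ℝ) ^ η * ((N : ℝ) ^ (3 * ε / 4) * (N : ℝ) ^ (5 * η * A)) := by gcongr
    _ = (N : ℝ) ^ (η + (3 * ε / 4 + 5 * η * A)) := by
      rw [← Real.rpow_add hN0, ← Real.rpow_add hN0]
    _ ≤ _ := by
      apply Real.rpow_le_rpow_of_exponent_le hNr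
      nlinarith

omit mΩ in
/-- the windows -/
lemma window (N : ℕ) (ε : ℝ) (a n : ℕ) :
    n ∈ Ico (a + 1) (a + 1 + ⌊(N : ℝ) ^ ε⌋₊) ↔ a < n ∧ (n : ℝ) ≤ a + (N : ℝ) ^ ε := by
  rw [Finset.mem_Ico]
  have h0 : (0 : ℝ) ≤ (N : ℝ) ^ ε := by positivity
  constructor
  · rintro ⟨h1, h2⟩
    refine ⟨by omega, ?_⟩
    have h3 : n ≤ a + ⌊(N : ℝ) ^ ε⌋₊ := by omega
    have h4 : (n : ℝ) ≤ a + (⌊(N : ℝ) ^ ε⌋₊ : ℝ) := by exact_mod_cast h3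
    have := Nat.floor_le h0
    linarith
  · rintro ⟨h1, h2⟩
    refine ⟨by omega, ?_⟩
    have h3 : ((n - a : ℕ) : ℝ) ≤ (N : ℝ) ^ ε := by
      rw [Nat.cast_sub h1.le]
      linarith
    have := Nat.le_floor h3
    omega

lemma window_finite (N : ℕ) (ε : ℝ) (a : ℕ) (P : ℕ → Prop) :
    {n : ℕ | a < n ∧ (n : ℝ) ≤ a + (N : ℝ) ^ ε ∧ P n}.Finite := by
  refine (Finset.finite_toSet (Ico (a + 1) (a + 1 + ⌊(N : ℝ) ^ ε⌋₊))).subset ?_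
  rintro n ⟨h1, h2, -⟩
  exact (window N ε a n).2 ⟨h1, h2⟩

lemma window_card (N : ℕ) (ε : ℝ) (a : ℕ) (h2 : 2 ≤ (N : ℝ) ^ ε) :
    (N : ℝ) ^ ε / 2 ≤ ((Ico (a + 1) (a + 1 + ⌊(N : ℝ) ^ ε⌋₊)).card : ℝ) := by
  rw [Nat.card_Ico, Nat.add_sub_cancel_left]
  have := Nat.lt_floor_add_one ((N : ℝ) ^ ε)
  linarith

end gen

/-- the choice of the exponent `η` -/
lemma eta (ε ε' : ℝ) (A : ℕ) (hε : 0 < ε) (hε' : 0 < ε') :
    ∃ η : ℝ, 0 < η ∧ η ≤ 1 ∧ 6 * η ≤ ε' ∧ (5 * A + 6) * η ≤ ε / 4 ∧ η ≤ ε := by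
  refine ⟨min (min 1 (ε' / 6)) (ε / (4 * (5 * A + 6))),
    lt_min (lt_min one_pos (by positivity)) (by positivity),
    (min_le_left _ _).trans (min_le_left _ _), ?_, ?_, ?_⟩
  · have : min (min 1 (ε' / 6)) (ε / (4 * (5 * A + 6))) ≤ ε' / 6 :=
      (min_le_left _ _).trans (min_le_right _ _)
    linarith
  · have h1 : min (min 1 (ε' / 6)) (ε / (4 * (5 * A + 6))) ≤ ε / (4 * (5 * A + 6)) :=
      min_le_right _ _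
    have h2 : (0 : ℝ) < 5 * A + 6 := by positivity
    rw [le_div_iff₀ (by positivity)] at h1
    linarith
  · refine (min_le_right _ _).trans ?_
    rw [div_le_iff₀ (by positivity)]
    have h2 : (0 : ℝ) ≤ A := Nat.cast_nonneg A
    nlinarith

theorem walk_real (ε ε' : ℝ) (A : ℕ) (hε : 0 < ε) (hε' : 0 < ε') : ∃ κ : ℝ, 0 < κ ∧
    ∀ (Ω : Type) [MeasurableSpace Ω] (μ : Measure Ω) [IsProbabilityMeasure μ] (X : ℕ → Ω → ℝ),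
    (∀ i, Measurable (X i)) → iIndepFun X μ →
    (∃ c : ℝ, 0 < c ∧ ∀ h q : ℕ, 1 ≤ h → 1 ≤ q → ∃ U : ℕ → ℂ,
      (∀ k, U k = 1 + (∫ ω, e ((h : ℝ) / q * X k ω) ∂μ) * U (k + 1)) ∧
        ∀ k, ‖U k‖ ≤ ((h : ℝ) * q) ^ A / c) →
    ∀ᵐ ω ∂μ, ∀ᶠ N : ℕ in atTop, ∀ a ≤ N, ∀ β : ℝ,
      (∀ n : ℕ, a < n → (n : ℝ) ≤ a + (N : ℝ) ^ ε → (N : ℝ) ^ ε ≤ S X n ω + β) →
      (N : ℝ) ^ (ε - ε') ≤ ({n : ℕ | a < n ∧ (n : ℝ) ≤ a + (N : ℝ) ^ ε ∧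
        ∀ q : ℕ, q.Prime → κ * ff N < |(q : ℝ) - (S X n ω + β)|}.ncard : ℝ) := by
  obtain ⟨η, hη, hη1, hη2, hη3, hη4⟩ := eta ε ε' A hε hε'
  obtain ⟨κ, hκ, hmany⟩ := many_real η ε hη hη1
  refine ⟨κ, hκ, ?_⟩
  intro Ω _ μ _ X hm hind hD
  obtain ⟨c, hc, hcA⟩ := hD
  filter_upwards [sum_small μ X hm hind (fun i θ => ∫ ω, e (θ * X i ω) ∂μ) (fun _ _ => rfl) ε η c A
    hε hη hη1 hc hη3 (fun _ _ => True) (fun h q hh hq _ => hcA h q hh hq)] with ω hω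
  filter_upwards [hω, tendsto_natCast_atTop_atTop.eventually hmany,
    tendsto_natCast_atTop_atTop.eventually ((tendsto_rpow_atTop hε).eventually_ge_atTop 2),
    eventually_ge_atTop 1] with N hN hM hN2 hN1
  intro a ha β hβ
  have hNr : (1 : ℝ) ≤ N := by exact_mod_cast hN1
  have hfin := window_finite N ε a (fun n => ∀ q : ℕ, q.Prime → κ * ff N <
    |(q : ℝ) - (S X n ω + β)|)
  rw [Set.ncard_eq_toFinset_card _ hfin]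
  refine le_trans (Real.rpow_le_rpow_of_exponent_le hNr (by linarith)) (hM
    (Ico (a + 1) (a + 1 + ⌊(N : ℝ) ^ ε⌋₊)) (fun n => S X n ω + β) (window_card N ε a hN2) ?_ ?_ _ ?_)
  · intro n hn
    obtain ⟨h1, h2⟩ := (window N ε a n).1 hn
    exact (Real.rpow_le_rpow_of_exponent_le hNr hη4).trans (hβ n h1 h2)
  · intro q h hq hqN hh hhN
    have h1 : ∑ n ∈ Ico (a + 1) (a + 1 + ⌊(N : ℝ) ^ ε⌋₊), e ((h : ℝ) / q * (S X n ω + β)) =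
        (∑ n ∈ Ico (a + 1) (a + 1 + ⌊(N : ℝ) ^ ε⌋₊), e ((h : ℝ) / q * S X n ω)) *
          e ((h : ℝ) / q * β) := by
      rw [sum_mul]
      refine sum_congr rfl fun n _ => ?_
      rw [← e_add]
      congr 1
      ring
    rw [h1, norm_mul, norm_e, mul_one]
    exact hN a ha q h hq hqN hh hhN trivial
  · intro n hn hP
    obtain ⟨h1, h2⟩ := (window N ε a n).1 hn
    rw [Set.Finite.mem_toFinset]
    exact ⟨h1, h2, hP⟩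

theorem walk_real_iid (ε ε' : ℝ) (A : ℕ) (hε : 0 < ε) (hε' : 0 < ε') : ∃ κ : ℝ, 0 < κ ∧
    ∀ (Ω : Type) [MeasurableSpace Ω] (μ : Measure Ω) [IsProbabilityMeasure μ] (X : ℕ → Ω → ℝ),
    (∀ i, Measurable (X i)) → iIndepFun X μ → (∀ i, IdentDistrib (X i) (X 0) μ μ) →
    (∃ c : ℝ, 0 < c ∧ ∀ h q : ℕ, 1 ≤ h → 1 ≤ q →
      c ≤ ‖1 - ∫ ω, e ((h : ℝ) / q * X 0 ω) ∂μ‖ * ((h : ℝ) * q) ^ A) →
    ∀ᵐ ω ∂μ, ∀ᶠ N : ℕ in atTop, ∀ a ≤ N, ∀ β : ℝ,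
      (∀ n : ℕ, a < n → (n : ℝ) ≤ a + (N : ℝ) ^ ε → (N : ℝ) ^ ε ≤ S X n ω + β) →
      (N : ℝ) ^ (ε - ε') ≤ ({n : ℕ | a < n ∧ (n : ℝ) ≤ a + (N : ℝ) ^ ε ∧
        ∀ q : ℕ, q.Prime → κ * ff N < |(q : ℝ) - (S X n ω + β)|}.ncard : ℝ) := by
  obtain ⟨κ, hκ, h⟩ := walk_real ε ε' A hε hε'
  refine ⟨κ, hκ, ?_⟩
  intro Ω _ μ _ X hm hind hid hD
  obtain ⟨c, hc, hcA⟩ := hD
  refine h Ω μ X hm hind ⟨c, hc, fun h q hh hq => ?_⟩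
  obtain ⟨U, hU1, hU2⟩ := pot_const (∫ ω, e ((h : ℝ) / q * X 0 ω) ∂μ) c (((h : ℝ) * q) ^ A) hc
    (hcA h q hh hq)
  refine ⟨U, fun k => ?_, hU2⟩
  have hφ : ∫ ω, e ((h : ℝ) / q * X k ω) ∂μ = ∫ ω, e ((h : ℝ) / q * X 0 ω) ∂μ := by
    have h1 : Measurable (fun x : ℝ => e ((h : ℝ) / q * x)) :=
      (continuous_e.comp (continuous_const.mul continuous_id)).measurable
    exact ((hid k).comp h1).integral_eq
  rw [hφ]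
  exact hU1 k

theorem walk_real_ind (ε ε' : ℝ) (A : ℕ) (hε : 0 < ε) (hε' : 0 < ε') : ∃ κ : ℝ, 0 < κ ∧
    ∀ (Ω : Type) [MeasurableSpace Ω] (μ : Measure Ω) [IsProbabilityMeasure μ] (X : ℕ → Ω → ℝ),
    (∀ i, Measurable (X i)) → iIndepFun X μ →
    (∃ c : ℝ, 0 < c ∧ ∀ h q i : ℕ, 1 ≤ h → 1 ≤ q →
      ‖∫ ω, e ((h : ℝ) / q * X i ω) ∂μ‖ ≤ 1 - c / ((h : ℝ) * q) ^ A) →
    ∀ᵐ ω ∂μ, ∀ᶠ N : ℕ in atTop, ∀ a ≤ N, ∀ β : ℝ,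
      (∀ n : ℕ, a < n → (n : ℝ) ≤ a + (N : ℝ) ^ ε → (N : ℝ) ^ ε ≤ S X n ω + β) →
      (N : ℝ) ^ (ε - ε') ≤ ({n : ℕ | a < n ∧ (n : ℝ) ≤ a + (N : ℝ) ^ ε ∧
        ∀ q : ℕ, q.Prime → κ * ff N < |(q : ℝ) - (S X n ω + β)|}.ncard : ℝ) := by
  obtain ⟨κ, hκ, h⟩ := walk_real ε ε' A hε hε'
  refine ⟨κ, hκ, ?_⟩
  intro Ω _ μ _ X hm hind hD
  obtain ⟨c, hc, hcA⟩ := hD
  refine h Ω μ X hm hind ⟨c, hc, fun h q hh hq => ?_⟩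
  have hh0 : (0 : ℝ) < h := by exact_mod_cast hh
  have hq0 : (0 : ℝ) < q := by exact_mod_cast hq
  obtain ⟨U, hU1, hU2⟩ := pot_lt (fun k => ∫ ω, e ((h : ℝ) / q * X k ω) ∂μ)
    (c / ((h : ℝ) * q) ^ A) (by positivity) (fun k => hcA h q k hh hq)
  refine ⟨U, hU1, fun k => (hU2 k).trans (le_of_eq ?_)⟩
  rw [one_div_div]

end Pool.Agent.X33.RW
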