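import Pool.Agent.X33.RW.Fin

set_option autoImplicit false

/-! Integer valued random walks. -/

namespace Pool.Agent.X33.RW

open Finset Filter MeasureTheory ProbabilityTheory Topology
open scoped ENNReal NNReal
open Pool.Agent.H469R2.NK (e norm_e e_add e_zero sin_ge)
open Pool.Agent.W147.PS (ff)

lemma e_re (x : ℝ) : (e x).re = Real.cos (2 * Real.pi * x) := by
  unfold e
  exact Complex.exp_ofReal_mul_I_re _

lemma e_frac_emod (q : ℕ) (hq : 1 ≤ q) (m : ℤ) : e ((m : ℝ) / q) = e (((m % q : ℤ) : ℝ) / q) := by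
  have hq0 : (q : ℝ) ≠ 0 := by positivity
  have h1 : (q : ℤ) * (m / q) + m % q = m := Int.mul_ediv_add_emod _ _
  have h2 : (m : ℝ) / q = ((m / q : ℤ) : ℝ) + ((m % q : ℤ) : ℝ) / q := by
    have h3 : (m : ℝ) = q * ((m / q : ℤ) : ℝ) + ((m % q : ℤ) : ℝ) := by exact_mod_cast h1.symm
    rw [div_eq_iff hq0, add_mul, div_mul_cancel₀ _ hq0]
    linarith
  rw [h2, e_add, e_int, one_mul]

/-- away from the multiples of `q` -/
lemma one_sub_re (q : ℕ) (hq : 1 ≤ q) (m : ℤ) (hm : ¬ (q : ℤ) ∣ m) :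
    8 / (q : ℝ) ^ 2 ≤ 1 - (e ((m : ℝ) / q)).re := by
  have hq0 : (0 : ℝ) < q := by exact_mod_cast hq
  have hqi : (0 : ℤ) < q := by exact_mod_cast hq
  rw [e_frac_emod q hq m, e_re]
  set r : ℤ := m % q with hr
  have hr0 : 1 ≤ r := by
    have h1 : 0 ≤ r := Int.emod_nonneg _ hqi.ne'
    have h2 : r ≠ 0 := fun h => hm (Int.dvd_of_emod_eq_zero h)
    omega
  have hr1 : r + 1 ≤ q := Int.emod_lt_of_pos _ hqi
  have hr0' : (1 : ℝ) ≤ r := by exact_mod_cast hr0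
  have hr1' : (r : ℝ) + 1 ≤ q := by exact_mod_cast hr1
  have h3 : 2 * (1 / (q : ℝ)) ≤ Real.sin (Real.pi * ((r : ℝ) / q)) := by
    apply sin_ge (by positivity)
    · gcongr
    · rw [le_sub_iff_add_le, ← add_div, div_le_one hq0]
      exact hr1'
  have h4 : Real.cos (2 * Real.pi * ((r : ℝ) / q)) =
      1 - 2 * Real.sin (Real.pi * ((r : ℝ) / q)) ^ 2 := by
    rw [mul_assoc, Real.cos_two_mul, Real.cos_sq']
    ring
  rw [h4]
  have h5 : (2 * (1 / (q : ℝ))) ^ 2 ≤ Real.sin (Real.pi * ((r : ℝ) / q)) ^ 2 :=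
    pow_le_pow_left₀ (by positivity) h3 2
  have h6 : 8 / (q : ℝ) ^ 2 = 2 * (2 * (1 / (q : ℝ))) ^ 2 := by
    field_simp
    norm_num
  rw [h6]
  linarith

section gen

variable {Ω : Type*} [mΩ : MeasurableSpace Ω] (μ : Measure Ω) [IsProbabilityMeasure μ]

/-- a uniform lower bound for the probability that `d` does not divide the step -/
lemma not_dvd (Y : Ω → ℤ)
    (hgen : ∀ d : ℕ, (∀ᵐ ω ∂μ, (d : ℤ) ∣ Y ω) → d = 1) :
    ∃ c : ℝ, 0 < c ∧ ∀ d : ℕ, 2 ≤ d → c ≤ μ.real {ω | ¬ (d : ℤ) ∣ Y ω} := by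
  have hpos : ∀ d : ℕ, d ≠ 1 → 0 < μ.real {ω | ¬ (d : ℤ) ∣ Y ω} := by
    intro d hd
    have h1 : μ {ω | ¬ (d : ℤ) ∣ Y ω} ≠ 0 := by
      intro h
      exact hd (hgen d h)
    exact ENNReal.toReal_pos h1 (measure_ne_top _ _)
  obtain ⟨x, hx0, hx⟩ : ∃ x : ℤ, x ≠ 0 ∧ 0 < μ.real {ω | Y ω = x} := by
    by_contra hcon
    push Not at hcon
    have h1 : μ {ω | ¬ ((0 : ℕ) : ℤ) ∣ Y ω} = 0 := by
      have h2 : {ω | ¬ ((0 : ℕ) : ℤ) ∣ Y ω} ⊆ ⋃ x : {x : ℤ // x ≠ 0}, {ω | Y ω = x} := by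
        intro ω hω
        have h3 : ¬ ((0 : ℕ) : ℤ) ∣ Y ω := hω
        rw [Nat.cast_zero, zero_dvd_iff] at h3
        rw [Set.mem_iUnion]
        exact ⟨⟨Y ω, h3⟩, rfl⟩
      refine measure_mono_null h2 (measure_iUnion_null fun x => ?_)
      have h4 := hcon x.1 x.2
      have h5 : μ.real {ω | Y ω = x.1} = 0 := le_antisymm h4 measureReal_nonneg
      rw [measureReal_def, ENNReal.toReal_eq_zero_iff] at h5
      rcases h5 with h5 | h5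
      · exact h5
      · exact absurd h5 (measure_ne_top _ _)
    exact absurd (hgen 0 h1) (by norm_num)
  have hev : ∀ᶠ c : ℝ in 𝓝[>] 0, c ≤ μ.real {ω | Y ω = x} ∧
      ∀ d ∈ (x.natAbs.divisors.filter (fun d => 2 ≤ d)), c ≤ μ.real {ω | ¬ (d : ℤ) ∣ Y ω} := by
    refine Filter.Eventually.and ?_ ?_
    · filter_upwards [Ioc_mem_nhdsGT hx] with c hc
      exact hc.2
    · rw [Finset.eventually_all]
      intro d hd
      have h1 := hpos d (by have := (mem_filter.1 hd).2; omega)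
      filter_upwards [Ioc_mem_nhdsGT h1] with c hc
      exact hc.2
  obtain ⟨c, ⟨hc1, hc2⟩, hc0⟩ := (hev.and self_mem_nhdsWithin).exists
  refine ⟨c, hc0, ?_⟩
  intro d hd
  by_cases hdx : (d : ℤ) ∣ x
  · apply hc2 d
    rw [mem_filter, Nat.mem_divisors]
    exact ⟨⟨Int.natCast_dvd.1 hdx, Int.natAbs_ne_zero.2 hx0⟩, hd⟩
  · refine hc1.trans (measureReal_mono ?_ (measure_ne_top _ _))
    intro ω hω
    have h1 : Y ω = x := hω
    show ¬ (d : ℤ) ∣ Y ω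
    rw [h1]
    exact hdx

omit [IsProbabilityMeasure μ] in
lemma meas_cast (Y : Ω → ℤ) (hY : Measurable Y) : Measurable (fun ω => (Y ω : ℝ)) :=
  (measurable_of_countable (fun z : ℤ => (z : ℝ))).comp hY

lemma re_gap (Y : Ω → ℤ) (hY : Measurable Y) (c : ℝ)
    (hcd : ∀ d : ℕ, 2 ≤ d → c ≤ μ.real {ω | ¬ (d : ℤ) ∣ Y ω}) (h q : ℕ) (hh : 1 ≤ h) (hhq : h < q) :
    8 / (q : ℝ) ^ 2 * c ≤ (1 - ∫ ω, e ((h : ℝ) / q * Y ω) ∂μ).re := by
  have hq1 : 1 ≤ q := by omega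
  have hq0 : (0 : ℝ) < q := by exact_mod_cast hq1
  have hYr : Measurable (fun ω => (Y ω : ℝ)) := meas_cast Y hY
  have hint := integrable_e μ (fun ω => (Y ω : ℝ)) hYr ((h : ℝ) / q)
  set g : ℕ := Nat.gcd h q with hg
  have hg0 : 0 < g := Nat.gcd_pos_of_pos_left _ (by omega)
  obtain ⟨h', hh'⟩ : g ∣ h := Nat.gcd_dvd_left _ _
  obtain ⟨d, hd⟩ : g ∣ q := Nat.gcd_dvd_right _ _
  have hd2 : 2 ≤ d := by
    have h1 : d ≠ 0 := by
      rintro rfl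
      rw [mul_zero] at hd
      omega
    have h2 : d ≠ 1 := by
      rintro rfl
      rw [mul_one] at hd
      have : q ∣ h := by rw [hd]; exact Nat.gcd_dvd_left _ _
      exact absurd (Nat.le_of_dvd (by omega) this) (by omega)
    omega
  have hcop : Nat.Coprime h' d := by
    have h1 : Nat.gcd (g * h') (g * d) = g := by rw [← hh', ← hd]
    rw [Nat.gcd_mul_left] at h1
    exact Nat.eq_of_mul_eq_mul_left hg0 (by rw [h1, mul_one])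
  have hsub : ∀ ω, ¬ (d : ℤ) ∣ Y ω → ¬ (q : ℤ) ∣ (h : ℤ) * Y ω := by
    intro ω hω hdv
    apply hω
    rw [hh', hd] at hdv
    push_cast at hdv
    rw [mul_assoc] at hdv
    have h1 : (d : ℤ) ∣ (h' : ℤ) * Y ω :=
      (mul_dvd_mul_iff_left (by exact_mod_cast hg0.ne')).1 hdv
    exact (Nat.isCoprime_iff_coprime.2 hcop).symm.dvd_of_dvd_mul_left h1
  have hmeas : MeasurableSet {ω | ¬ (d : ℤ) ∣ Y ω} :=
    hY (MeasurableSet.of_discrete (s := {y : ℤ | ¬ (d : ℤ) ∣ y}))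
  have h2 : (1 - ∫ ω, e ((h : ℝ) / q * Y ω) ∂μ).re = ∫ ω, (1 - (e ((h : ℝ) / q * Y ω)).re) ∂μ := by
    have h3 := Complex.reCLM.integral_comp_comm hint
    simp only [Complex.reCLM_apply] at h3
    rw [integral_sub (integrable_const _) (by
      have := Complex.reCLM.integrable_comp hint
      simpa using this), h3]
    simp
  rw [h2]
  calc 8 / (q : ℝ) ^ 2 * c ≤ 8 / (q : ℝ) ^ 2 * μ.real {ω | ¬ (d : ℤ) ∣ Y ω} := by
        gcongr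
        exact hcd d hd2
    _ = ∫ ω, {ω | ¬ (d : ℤ) ∣ Y ω}.indicator (fun _ => 8 / (q : ℝ) ^ 2) ω ∂μ := by
        rw [integral_indicator_const _ hmeas, smul_eq_mul, mul_comm]
    _ ≤ ∫ ω, (1 - (e ((h : ℝ) / q * Y ω)).re) ∂μ := by
        apply integral_mono
        · exact (integrable_const _).indicator hmeas
        · refine (integrable_const _).sub ?_
          have := Complex.reCLM.integrable_comp hint
          simpa using this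
        · intro ω
          dsimp only
          by_cases hω : ω ∈ {ω | ¬ (d : ℤ) ∣ Y ω}
          · rw [Set.indicator_of_mem hω]
            have h4 := one_sub_re q hq1 ((h : ℤ) * Y ω) (hsub ω hω)
            have h5 : (((h : ℤ) * Y ω : ℤ) : ℝ) / q = (h : ℝ) / q * Y ω := by
              push_cast
              ring
            rw [h5] at h4
            exact h4
          · rw [Set.indicator_of_notMem hω]
            have := Complex.re_le_norm (e ((h : ℝ) / q * Y ω))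
            rw [norm_e] at this
            linarith

lemma gap_int (Y : Ω → ℤ) (hY : Measurable Y)
    (hgen : ∀ d : ℕ, (∀ᵐ ω ∂μ, (d : ℤ) ∣ Y ω) → d = 1) :
    ∃ c : ℝ, 0 < c ∧ ∀ h q : ℕ, 1 ≤ h → h < q →
      c ≤ ‖1 - ∫ ω, e ((h : ℝ) / q * Y ω) ∂μ‖ * ((h : ℝ) * q) ^ 2 := by
  obtain ⟨c, hc, hcd⟩ := not_dvd μ Y hgen
  refine ⟨8 * c, by positivity, ?_⟩
  intro h q hh hhq
  have hq0 : (0 : ℝ) < q := by
    have : 1 ≤ q := by omega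
    exact_mod_cast this
  have h2 : 8 / (q : ℝ) ^ 2 * c ≤ ‖1 - ∫ ω, e ((h : ℝ) / q * Y ω) ∂μ‖ :=
    (re_gap μ Y hY c hcd h q hh hhq).trans (Complex.re_le_norm _)
  have hhr : (1 : ℝ) ≤ h := by exact_mod_cast hh
  calc 8 * c ≤ 8 * c * (h : ℝ) ^ 2 := by
        have : (1 : ℝ) ≤ (h : ℝ) ^ 2 := one_le_pow₀ hhr
        nlinarith
    _ = 8 / (q : ℝ) ^ 2 * c * ((h : ℝ) * q) ^ 2 := by field_simp
    _ ≤ _ := by gcongr

/-- the modulus of the characteristic function -/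
lemma abs_gap (Y : Ω → ℤ) (hY : Measurable Y) (c : ℝ) (hc : 0 < c)
    (hcd : ∀ (d : ℕ) (r : ℤ), 2 ≤ d → c ≤ μ.real {ω | ¬ (d : ℤ) ∣ Y ω - r}) (h q : ℕ) (hh : 1 ≤ h)
    (hhq : h < q) : ‖∫ ω, e ((h : ℝ) / q * Y ω) ∂μ‖ ≤ 1 - c / ((h : ℝ) * q) ^ 2 := by
  have hq0 : (0 : ℝ) < q := by
    have : 1 ≤ q := by omega
    exact_mod_cast this
  have hhr : (1 : ℝ) ≤ h := by exact_mod_cast hh
  have hYr : Measurable (fun ω => (Y ω : ℝ)) := meas_cast Y hY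
  have hint := integrable_e μ (fun ω => (Y ω : ℝ)) hYr ((h : ℝ) / q)
  set φ : ℂ := ∫ ω, e ((h : ℝ) / q * Y ω) ∂μ with hφ
  have h1 : ∀ r : ℤ, 8 / (q : ℝ) ^ 2 * c ≤ 1 - (φ * (starRingEnd ℂ) (e ((h : ℝ) / q * r))).re := by
    intro r
    have h2 := re_gap μ (fun ω => Y ω - r) (hY.sub_const r) c (fun d hd => hcd d r hd) h q hh hhq
    refine h2.trans (le_of_eq ?_)
    have h3 : ∫ ω, e ((h : ℝ) / q * ((Y ω - r : ℤ) : ℝ)) ∂μ =
        φ * (starRingEnd ℂ) (e ((h : ℝ) / q * r)) := by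
      rw [hφ, ← integral_mul_const]
      refine integral_congr_ae (Eventually.of_forall fun ω => ?_)
      dsimp only
      rw [Pool.Agent.H469R2.NK.conj_e, ← e_add]
      congr 1
      push_cast
      ring
    rw [h3]
    simp
  have hint2 : Integrable (fun ω => φ * (starRingEnd ℂ) (e ((h : ℝ) / q * Y ω))) μ := by
    refine Integrable.const_mul ?_ φ
    have h4 : (fun ω => (starRingEnd ℂ) (e ((h : ℝ) / q * Y ω))) =
        fun ω => e (-((h : ℝ) / q) * Y ω) := by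
      funext ω
      rw [Pool.Agent.H469R2.NK.conj_e]
      congr 1
      ring
    rw [h4]
    exact integrable_e μ (fun ω => (Y ω : ℝ)) hYr _
  have h5 : 8 / (q : ℝ) ^ 2 * c ≤ 1 - ‖φ‖ ^ 2 := by
    have h6 : ∫ ω, (φ * (starRingEnd ℂ) (e ((h : ℝ) / q * Y ω))).re ∂μ = ‖φ‖ ^ 2 := by
      have h7 := Complex.reCLM.integral_comp_comm hint2
      simp only [Complex.reCLM_apply] at h7
      rw [h7, integral_const_mul, integral_conj, ← hφ, Complex.mul_conj, Complex.ofReal_re,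
        Complex.normSq_eq_norm_sq]
    have h8 : ∫ ω, (8 / (q : ℝ) ^ 2 * c) ∂μ ≤
        ∫ ω, (1 - (φ * (starRingEnd ℂ) (e ((h : ℝ) / q * Y ω))).re) ∂μ := by
      apply integral_mono (integrable_const _)
      · refine (integrable_const _).sub ?_
        have := Complex.reCLM.integrable_comp hint2
        simpa using this
      · intro ω
        exact h1 (Y ω)
    rw [integral_sub (integrable_const _) (by
      have := Complex.reCLM.integrable_comp hint2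
      simpa using this), h6] at h8
    simpa using h8
  have hφ1 : ‖φ‖ ≤ 1 := norm_phi_le μ (fun ω => (Y ω : ℝ)) _
  have hφ0 : 0 ≤ ‖φ‖ := norm_nonneg _
  have h9 : c / ((h : ℝ) * q) ^ 2 ≤ c / (q : ℝ) ^ 2 := by
    gcongr
    nlinarith
  have h10 : 8 / (q : ℝ) ^ 2 * c = 8 * (c / (q : ℝ) ^ 2) := by ring
  have h11 : 0 < c / (q : ℝ) ^ 2 := by positivity
  rw [h10] at h5
  nlinarith

end gen

theorem walk_int (ε ε' : ℝ) (hε : 0 < ε) (hε' : 0 < ε') : ∃ κ : ℝ, 0 < κ ∧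
    ∀ (Ω : Type) [MeasurableSpace Ω] (μ : Measure Ω) [IsProbabilityMeasure μ] (ξ : ℕ → Ω → ℤ),
    (∀ i, Measurable (ξ i)) → iIndepFun ξ μ →
    (∃ c : ℝ, 0 < c ∧ ∀ h q : ℕ, 1 ≤ h → h < q → ∃ U : ℕ → ℂ,
      (∀ k, U k = 1 + (∫ ω, e ((h : ℝ) / q * ξ k ω) ∂μ) * U (k + 1)) ∧
        ∀ k, ‖U k‖ ≤ ((h : ℝ) * q) ^ 2 / c) →
    ∀ᵐ ω ∂μ, ∀ᶠ N : ℕ in atTop, ∀ a ≤ N, ∀ β : ℤ,
      (∀ n : ℕ, a < n → (n : ℝ) ≤ a + (N : ℝ) ^ ε →
        (N : ℝ) ^ ε ≤ ((∑ i ∈ range n, ξ i ω + β : ℤ) : ℝ)) →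
      (N : ℝ) ^ (ε - ε') ≤ ({n : ℕ | a < n ∧ (n : ℝ) ≤ a + (N : ℝ) ^ ε ∧
        ∀ q : ℕ, q.Prime → κ * ff N < |(q : ℝ) - ((∑ i ∈ range n, ξ i ω + β : ℤ) : ℝ)|}.ncard : ℝ) := by
  obtain ⟨η, hη, hη1, hη2, hη3, hη4⟩ := eta ε ε' 2 hε hε'
  obtain ⟨κ, hκ, hmany⟩ := many_int η ε hη hη1
  refine ⟨κ, hκ, ?_⟩
  intro Ω _ μ _ ξ hm hind hD
  obtain ⟨c, hc, hcA⟩ := hD
  have hcast : Measurable (fun z : ℤ => (z : ℝ)) := measurable_of_countable _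
  set X : ℕ → Ω → ℝ := fun i ω => (ξ i ω : ℝ) with hX
  have hXm : ∀ i, Measurable (X i) := fun i => hcast.comp (hm i)
  have hXind : iIndepFun X μ := hind.comp (fun _ z => (z : ℝ)) (fun _ => hcast)
  have hS : ∀ n ω, S X n ω = ((∑ i ∈ range n, ξ i ω : ℤ) : ℝ) := by
    intro n ω
    unfold S
    push_cast
    rfl
  filter_upwards [sum_small μ X hXm hXind (fun i θ => ∫ ω, e (θ * X i ω) ∂μ) (fun _ _ => rfl) ε η c
    2 hε hη hη1 hc hη3 (fun h q => h < q) (fun h q hh _ hhq => hcA h q hh hhq)] with ω hω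
  filter_upwards [hω, tendsto_natCast_atTop_atTop.eventually hmany,
    tendsto_natCast_atTop_atTop.eventually ((tendsto_rpow_atTop hε).eventually_ge_atTop 2),
    eventually_ge_atTop 1] with N hN hM hN2 hN1
  intro a ha β hβ
  have hNr : (1 : ℝ) ≤ N := by exact_mod_cast hN1
  have hfin := window_finite N ε a (fun n => ∀ q : ℕ, q.Prime → κ * ff N <
    |(q : ℝ) - ((∑ i ∈ range n, ξ i ω + β : ℤ) : ℝ)|)
  rw [Set.ncard_eq_toFinset_card _ hfin]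
  refine le_trans (Real.rpow_le_rpow_of_exponent_le hNr (by linarith)) (hM
    (Ico (a + 1) (a + 1 + ⌊(N : ℝ) ^ ε⌋₊)) (fun n => ∑ i ∈ range n, ξ i ω + β)
    (window_card N ε a hN2) ?_ ?_ _ ?_)
  · intro n hn
    obtain ⟨h1, h2⟩ := (window N ε a n).1 hn
    exact (Real.rpow_le_rpow_of_exponent_le hNr hη4).trans (hβ n h1 h2)
  · intro q h hh hhq hqN
    have h1 : ∑ n ∈ Ico (a + 1) (a + 1 + ⌊(N : ℝ) ^ ε⌋₊),
        e ((h : ℝ) / q * ((∑ i ∈ range n, ξ i ω + β : ℤ) : ℝ)) =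
        (∑ n ∈ Ico (a + 1) (a + 1 + ⌊(N : ℝ) ^ ε⌋₊), e ((h : ℝ) / q * S X n ω)) *
          e ((h : ℝ) / q * β) := by
      rw [sum_mul]
      refine sum_congr rfl fun n _ => ?_
      rw [← e_add, hS]
      congr 1
      push_cast
      ring
    rw [h1, norm_mul, norm_e, mul_one]
    have hhN : (h : ℝ) ≤ (N : ℝ) ^ (4 * η) := by
      have h2 : (h : ℝ) ≤ q := by exact_mod_cast hhq.le
      exact h2.trans (hqN.trans (Real.rpow_le_rpow_of_exponent_le hNr (by linarith)))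
    exact hN a ha q h (by omega) hqN hh hhN hhq
  · intro n hn hP
    obtain ⟨h1, h2⟩ := (window N ε a n).1 hn
    rw [Set.Finite.mem_toFinset]
    exact ⟨h1, h2, hP⟩

theorem walk_int_iid (ε ε' : ℝ) (hε : 0 < ε) (hε' : 0 < ε') : ∃ κ : ℝ, 0 < κ ∧
    ∀ (Ω : Type) [MeasurableSpace Ω] (μ : Measure Ω) [IsProbabilityMeasure μ] (ξ : ℕ → Ω → ℤ),
    (∀ i, Measurable (ξ i)) → iIndepFun ξ μ → (∀ i, IdentDistrib (ξ i) (ξ 0) μ μ) →
    (∀ d : ℕ, (∀ᵐ ω ∂μ, (d : ℤ) ∣ ξ 0 ω) → d = 1) →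
    ∀ᵐ ω ∂μ, ∀ᶠ N : ℕ in atTop, ∀ a ≤ N, ∀ β : ℤ,
      (∀ n : ℕ, a < n → (n : ℝ) ≤ a + (N : ℝ) ^ ε →
        (N : ℝ) ^ ε ≤ ((∑ i ∈ range n, ξ i ω + β : ℤ) : ℝ)) →
      (N : ℝ) ^ (ε - ε') ≤ ({n : ℕ | a < n ∧ (n : ℝ) ≤ a + (N : ℝ) ^ ε ∧
        ∀ q : ℕ, q.Prime → κ * ff N < |(q : ℝ) - ((∑ i ∈ range n, ξ i ω + β : ℤ) : ℝ)|}.ncard : ℝ) := by
  obtain ⟨κ, hκ, h⟩ := walk_int ε ε' hε hε'
  refine ⟨κ, hκ, ?_⟩
  intro Ω _ μ _ ξ hm hind hid hgen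
  obtain ⟨c, hc, hcA⟩ := gap_int μ (ξ 0) (hm 0) hgen
  refine h Ω μ ξ hm hind ⟨c, hc, fun h q hh hhq => ?_⟩
  obtain ⟨U, hU1, hU2⟩ := pot_const (∫ ω, e ((h : ℝ) / q * ξ 0 ω) ∂μ) c (((h : ℝ) * q) ^ 2) hc
    (hcA h q hh hhq)
  refine ⟨U, fun k => ?_, hU2⟩
  have hφ : ∫ ω, e ((h : ℝ) / q * ξ k ω) ∂μ = ∫ ω, e ((h : ℝ) / q * ξ 0 ω) ∂μ := by
    have h1 : Measurable (fun x : ℤ => e ((h : ℝ) / q * (x : ℝ))) := measurable_of_countable _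
    exact ((hid k).comp h1).integral_eq
  rw [hφ]
  exact hU1 k

theorem walk_int_ind (ε ε' : ℝ) (hε : 0 < ε) (hε' : 0 < ε') : ∃ κ : ℝ, 0 < κ ∧
    ∀ (Ω : Type) [MeasurableSpace Ω] (μ : Measure Ω) [IsProbabilityMeasure μ] (ξ : ℕ → Ω → ℤ),
    (∀ i, Measurable (ξ i)) → iIndepFun ξ μ →
    (∃ c : ℝ, 0 < c ∧ ∀ (i d : ℕ) (r : ℤ), 2 ≤ d → c ≤ μ.real {ω | ¬ (d : ℤ) ∣ ξ i ω - r}) →
    ∀ᵐ ω ∂μ, ∀ᶠ N : ℕ in atTop, ∀ a ≤ N, ∀ β : ℤ,
      (∀ n : ℕ, a < n → (n : ℝ) ≤ a + (N : ℝ) ^ ε →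
        (N : ℝ) ^ ε ≤ ((∑ i ∈ range n, ξ i ω + β : ℤ) : ℝ)) →
      (N : ℝ) ^ (ε - ε') ≤ ({n : ℕ | a < n ∧ (n : ℝ) ≤ a + (N : ℝ) ^ ε ∧
        ∀ q : ℕ, q.Prime → κ * ff N < |(q : ℝ) - ((∑ i ∈ range n, ξ i ω + β : ℤ) : ℝ)|}.ncard : ℝ) := by
  obtain ⟨κ, hκ, h⟩ := walk_int ε ε' hε hε'
  refine ⟨κ, hκ, ?_⟩
  intro Ω _ μ _ ξ hm hind hD
  obtain ⟨c, hc, hcA⟩ := hD
  refine h Ω μ ξ hm hind ⟨c, hc, fun h q hh hhq => ?_⟩
  have hh0 : (0 : ℝ) < h := by exact_mod_cast hh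
  have hq0 : (0 : ℝ) < q := by
    have : 1 ≤ q := by omega
    exact_mod_cast this
  obtain ⟨U, hU1, hU2⟩ := pot_lt (fun k => ∫ ω, e ((h : ℝ) / q * ξ k ω) ∂μ)
    (c / ((h : ℝ) * q) ^ 2) (by positivity) (fun k => abs_gap μ (ξ k) (hm k) c hc
      (fun d r hd => hcA k d r hd) h q hh hhq)
  refine ⟨U, hU1, fun k => (hU2 k).trans (le_of_eq ?_)⟩
  rw [one_div_div]

end Pool.Agent.X33.RW
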