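import Pool.Agent.X33.RW.Crit
import Mathlib.Probability.Moments.SubGaussian
import Mathlib.Probability.BorelCantelli

set_option autoImplicit false

/-! Exponential moments of sums of bounded functions of a partial sum and the next step. -/

namespace Pool.Agent.X33.RW

open Finset Filter MeasureTheory ProbabilityTheory
open scoped ENNReal NNReal
open Pool.Agent.H469R2.NK (e norm_e e_add e_zero)

section gen

variable {Ω : Type*} [mΩ : MeasurableSpace Ω] (μ : Measure Ω) [IsProbabilityMeasure μ]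

lemma lint_exp_le (Y : Ω → ℝ) (hY : Measurable Y) (hb : ∀ ω, |Y ω| ≤ 2) (h0 : ∫ ω, Y ω ∂μ = 0)
    (t : ℝ) : ∫⁻ ω, ENNReal.ofReal (Real.exp (t * Y ω)) ∂μ ≤ ENNReal.ofReal (Real.exp (2 * t ^ 2)) := by
  have h1 := hasSubgaussianMGF_of_mem_Icc_of_integral_eq_zero (μ := μ) (X := Y) (a := -2) (b := 2)
    hY.aemeasurable (Eventually.of_forall fun ω => abs_le.mp (hb ω)) h0
  have h2 := h1.mgf_le t
  have h3 := h1.integrable_exp_mul t
  rw [← ofReal_integral_eq_lintegral_ofReal h3 (Eventually.of_forall fun ω => (Real.exp_pos _).le)]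
  apply ENNReal.ofReal_le_ofReal
  refine h2.trans (le_of_eq ?_)
  congr 1
  have h4 : (((‖(2 : ℝ) - -2‖₊ / 2) ^ 2 : ℝ≥0) : ℝ) = 4 := by
    push_cast
    rw [Real.norm_eq_abs]
    norm_num
  rw [h4]
  ring

/-- one more step -/
lemma step (W S Y : Ω → ℝ) (hW : Measurable W) (hS : Measurable S) (hY : Measurable Y)
    (hind : IndepFun (fun ω => (W ω, S ω)) Y μ) (g : ℝ → ℝ → ℝ)
    (hg : Measurable (Function.uncurry g)) (hgb : ∀ s x, |g s x| ≤ 2)
    (hg0 : ∀ s, ∫ ω, g s (Y ω) ∂μ = 0) (t : ℝ) :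
    ∫⁻ ω, ENNReal.ofReal (Real.exp (t * (W ω + g (S ω) (Y ω)))) ∂μ ≤
      ENNReal.ofReal (Real.exp (2 * t ^ 2)) * ∫⁻ ω, ENNReal.ofReal (Real.exp (t * W ω)) ∂μ := by
  have hWS : Measurable (fun ω => (W ω, S ω)) := hW.prodMk hS
  have hmap := (indepFun_iff_map_prod_eq_prod_map_map hWS.aemeasurable hY.aemeasurable).1 hind
  have : IsProbabilityMeasure (μ.map Y) := Measure.isProbabilityMeasure_map hY.aemeasurable
  have : IsProbabilityMeasure (μ.map (fun ω => (W ω, S ω))) :=
    Measure.isProbabilityMeasure_map hWS.aemeasurable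
  set f : (ℝ × ℝ) × ℝ → ℝ≥0∞ := fun p =>
    ENNReal.ofReal (Real.exp (t * (p.1.1 + g p.1.2 p.2))) with hf
  have hgm : Measurable (fun p : (ℝ × ℝ) × ℝ => g p.1.2 p.2) :=
    hg.comp ((measurable_snd.comp measurable_fst).prodMk measurable_snd)
  have hfm : Measurable f := by
    apply ENNReal.measurable_ofReal.comp
    apply Real.measurable_exp.comp
    exact ((measurable_fst.comp measurable_fst).add hgm).const_mul t
  calc ∫⁻ ω, ENNReal.ofReal (Real.exp (t * (W ω + g (S ω) (Y ω)))) ∂μ =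
      ∫⁻ p, f p ∂(μ.map (fun ω => ((W ω, S ω), Y ω))) := by
        rw [lintegral_map hfm (hWS.prodMk hY)]
    _ = ∫⁻ z, ∫⁻ y, f (z, y) ∂(μ.map Y) ∂(μ.map (fun ω => (W ω, S ω))) := by
        rw [hmap, lintegral_prod _ hfm.aemeasurable]
    _ ≤ ∫⁻ z, ENNReal.ofReal (Real.exp (2 * t ^ 2)) * ENNReal.ofReal (Real.exp (t * z.1))
          ∂(μ.map (fun ω => (W ω, S ω))) := by
        apply lintegral_mono
        intro z
        have hgz : Measurable (fun y => g z.2 y) := hg.comp (measurable_const.prodMk measurable_id)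
        have h1 : ∀ y, f (z, y) = ENNReal.ofReal (Real.exp (t * z.1)) *
            ENNReal.ofReal (Real.exp (t * g z.2 y)) := by
          intro y
          rw [hf]
          dsimp only
          rw [← ENNReal.ofReal_mul (Real.exp_pos _).le, ← Real.exp_add]
          congr 2
          ring
        dsimp only
        simp_rw [h1]
        have hgzm : Measurable (fun y => ENNReal.ofReal (Real.exp (t * g z.2 y))) :=
          ENNReal.measurable_ofReal.comp (Real.measurable_exp.comp (hgz.const_mul t))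
        rw [lintegral_const_mul _ hgzm, mul_comm]
        gcongr
        rw [lintegral_map hgzm hY]
        exact lint_exp_le μ (fun ω => g z.2 (Y ω)) (hgz.comp hY) (fun ω => hgb _ _) (hg0 _) t
    _ = _ := by
        have hfm2 : Measurable (fun z : ℝ × ℝ => ENNReal.ofReal (Real.exp (t * z.1))) :=
          ENNReal.measurable_ofReal.comp (Real.measurable_exp.comp (measurable_fst.const_mul t))
        rw [lintegral_const_mul _ hfm2]
        congr 1
        rw [lintegral_map hfm2 hWS]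

/-- the partial sums -/
def S (X : ℕ → Ω → ℝ) (n : ℕ) (ω : Ω) : ℝ := ∑ i ∈ range n, X i ω

lemma measurable_S (X : ℕ → Ω → ℝ) (hm : ∀ i, Measurable (X i)) (n : ℕ) : Measurable (S X n) := by
  unfold S
  exact Finset.measurable_fun_sum _ (fun i _ => hm i)

omit [IsProbabilityMeasure μ] in
lemma indep_past (X : ℕ → Ω → ℝ) (hm : ∀ i, Measurable (X i)) (hind : iIndepFun X μ)
    (g : ℕ → ℝ → ℝ → ℝ) (hg : ∀ k, Measurable (Function.uncurry (g k))) (a n : ℕ) :
    IndepFun (fun ω => (∑ k ∈ Ico a n, g k (S X k ω) (X k ω), S X n ω)) (X n) μ := by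
  set m : ℕ → MeasurableSpace Ω := fun i => MeasurableSpace.comap (X i) inferInstance with hmdef
  have h1 : Indep (⨆ i ∈ Set.Iio n, m i) (⨆ i ∈ ({n} : Set ℕ), m i) μ := by
    apply indep_iSup_of_disjoint
    · intro i
      exact (hm i).comap_le
    · exact hind
    · rw [Set.disjoint_left]
      intro i hi hi2
      rw [Set.mem_Iio] at hi
      rw [Set.mem_singleton_iff] at hi2
      omega
  set F : MeasurableSpace Ω := ⨆ i ∈ Set.Iio n, m i with hF
  have h2 : ∀ i, i < n → Measurable[F] (X i) := by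
    intro i hi
    have h3 : m i ≤ F := le_iSup₂_of_le i hi le_rfl
    exact (comap_measurable (X i)).mono h3 le_rfl
  have h3 : ∀ k, k ≤ n → Measurable[F] (S X k) := by
    intro k hk
    unfold S
    exact Finset.measurable_fun_sum _ (fun i hi => h2 i (lt_of_lt_of_le (mem_range.1 hi) hk))
  have h4 : Measurable[F] (fun ω => ∑ k ∈ Ico a n, g k (S X k ω) (X k ω)) := by
    apply Finset.measurable_fun_sum
    intro k hk
    rw [Finset.mem_Ico] at hk
    exact (hg k).comp ((h3 k hk.2.le).prodMk (h2 k hk.2))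
  have h5 : Measurable[F] (fun ω => (∑ k ∈ Ico a n, g k (S X k ω) (X k ω), S X n ω)) :=
    h4.prodMk (h3 n le_rfl)
  rw [IndepFun_iff_Indep]
  refine indep_of_indep_of_le_left (indep_of_indep_of_le_right h1 ?_) h5.comap_le
  exact le_iSup₂_of_le n (Set.mem_singleton n) le_rfl

theorem mgf_bound (X : ℕ → Ω → ℝ) (hm : ∀ i, Measurable (X i)) (hind : iIndepFun X μ)
    (g : ℕ → ℝ → ℝ → ℝ) (hg : ∀ k, Measurable (Function.uncurry (g k)))
    (hgb : ∀ k s x, |g k s x| ≤ 2) (hg0 : ∀ i s, ∫ ω, g i s (X i ω) ∂μ = 0) (t : ℝ) (a L : ℕ) :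
    ∫⁻ ω, ENNReal.ofReal (Real.exp (t * ∑ k ∈ Ico a (a + L), g k (S X k ω) (X k ω))) ∂μ ≤
      ENNReal.ofReal (Real.exp (2 * t ^ 2 * L)) := by
  induction L with
  | zero => simp
  | succ L ih =>
    have h1 : ∀ ω, ∑ k ∈ Ico a (a + (L + 1)), g k (S X k ω) (X k ω) =
        ∑ k ∈ Ico a (a + L), g k (S X k ω) (X k ω) + g (a + L) (S X (a + L) ω) (X (a + L) ω) := by
      intro ω
      rw [← add_assoc, sum_Ico_succ_top (by omega)]
    simp_rw [h1]
    have hWm : Measurable (fun ω => ∑ k ∈ Ico a (a + L), g k (S X k ω) (X k ω)) := by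
      apply Finset.measurable_fun_sum
      intro k _
      exact (hg k).comp ((measurable_S X hm k).prodMk (hm k))
    refine (step μ _ _ _ hWm (measurable_S X hm _) (hm (a + L))
      (indep_past μ X hm hind g hg a (a + L)) (g (a + L)) (hg _) (hgb _) (hg0 _) t).trans ?_
    calc ENNReal.ofReal (Real.exp (2 * t ^ 2)) * _ ≤ ENNReal.ofReal (Real.exp (2 * t ^ 2)) *
        ENNReal.ofReal (Real.exp (2 * t ^ 2 * L)) := by gcongr
      _ = _ := by
        rw [← ENNReal.ofReal_mul (Real.exp_pos _).le, ← Real.exp_add]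
        congr 2
        push_cast
        ring

theorem tail (X : ℕ → Ω → ℝ) (hm : ∀ i, Measurable (X i)) (hind : iIndepFun X μ)
    (g : ℕ → ℝ → ℝ → ℝ) (hg : ∀ k, Measurable (Function.uncurry (g k)))
    (hgb : ∀ k s x, |g k s x| ≤ 2) (hg0 : ∀ i s, ∫ ω, g i s (X i ω) ∂μ = 0) (a L : ℕ) (hL : 1 ≤ L) (l : ℝ) (hl : 0 ≤ l) :
    μ {ω | l ≤ ∑ k ∈ Ico a (a + L), g k (S X k ω) (X k ω)} ≤
      ENNReal.ofReal (Real.exp (-(l ^ 2 / (8 * L)))) := by
  have hL0 : (0 : ℝ) < L := by exact_mod_cast hL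
  set t : ℝ := l / (4 * L) with ht
  have ht0 : 0 ≤ t := by positivity
  have hWm : Measurable (fun ω => ∑ k ∈ Ico a (a + L), g k (S X k ω) (X k ω)) := by
    apply Finset.measurable_fun_sum
    intro k _
    exact (hg k).comp ((measurable_S X hm k).prodMk (hm k))
  have hfm : Measurable (fun ω => ENNReal.ofReal (Real.exp (t * ∑ k ∈ Ico a (a + L),
      g k (S X k ω) (X k ω)))) :=
    ENNReal.measurable_ofReal.comp (Real.measurable_exp.comp (hWm.const_mul t))
  have h1 := mul_meas_ge_le_lintegral₀ (μ := μ) hfm.aemeasurable (ENNReal.ofReal (Real.exp (t * l)))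
  have h2 := h1.trans (mgf_bound μ X hm hind g hg hgb hg0 t a L)
  have h3 : {ω | l ≤ ∑ k ∈ Ico a (a + L), g k (S X k ω) (X k ω)} ⊆
      {ω | ENNReal.ofReal (Real.exp (t * l)) ≤ ENNReal.ofReal (Real.exp (t * ∑ k ∈ Ico a (a + L),
      g k (S X k ω) (X k ω)))} := by
    intro ω hω
    apply ENNReal.ofReal_le_ofReal
    apply Real.exp_le_exp.2
    exact mul_le_mul_of_nonneg_left hω ht0
  have h4 : ENNReal.ofReal (Real.exp (t * l)) * μ {ω | l ≤ ∑ k ∈ Ico a (a + L),
      g k (S X k ω) (X k ω)} ≤ ENNReal.ofReal (Real.exp (2 * t ^ 2 * L)) :=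
    le_trans (by gcongr) h2
  have h5 : ENNReal.ofReal (Real.exp (2 * t ^ 2 * L)) = ENNReal.ofReal (Real.exp (t * l)) *
      ENNReal.ofReal (Real.exp (-(l ^ 2 / (8 * L)))) := by
    rw [← ENNReal.ofReal_mul (Real.exp_pos _).le, ← Real.exp_add]
    congr 2
    rw [ht]
    field_simp
    ring
  rw [h5] at h4
  have h6 : ENNReal.ofReal (Real.exp (t * l)) ≠ 0 := by
    rw [Ne, ENNReal.ofReal_eq_zero, not_le]
    exact Real.exp_pos _
  exact (ENNReal.mul_le_mul_iff_right h6 ENNReal.ofReal_ne_top).1 h4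

end gen

end Pool.Agent.X33.RW
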